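import Mathlib
import Pool.Agent.KS7_39.H840R2.LJA

set_option autoImplicit false

namespace Pool.Agent.KS7_39.LJ

open Metric Set Filter Topology Pool.Agent.KS7_39.H540

section Remainder

variable {E : Type*} [NormedAddCommGroup E] [NormedSpace ℂ E] [FiniteDimensional ℂ E]

/-- A second order expansion in one direction, uniform in the base point. -/
theorem second_exp {f : E → ℂ} (hf : DifferentiableOn ℂ f (ball 0 1)) (e : E) :
    ∃ s : ℂ, ∃ δ > 0, ∃ C ≥ 0, δ < 1 ∧ ∀ p : E, ∀ x : ℂ, ‖p‖ < δ → ‖x‖ * ‖e‖ < δ →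
      ‖f (p + x • e) - f p - x * fderiv ℂ f p e - x ^ 2 * s‖ ≤
        C * ‖x‖ ^ 2 * (‖p‖ + ‖x‖) := by
  have hc1 : ContDiffOn ℂ (2 : ℕ) f (ball 0 1) := contDiffOn_of_differentiableOn isOpen_ball hf 2
  have hfd : DifferentiableOn ℂ (fderiv ℂ f) (ball 0 1) := by
    intro z hz
    have h1 : ContDiffAt ℂ (2 : ℕ) f z := hc1.contDiffAt (isOpen_ball.mem_nhds hz)
    have h2 : ContDiffAt ℂ 1 (fderiv ℂ f) z := h1.fderiv_right (by norm_num)
    exact (h2.differentiableAt (by norm_num)).differentiableWithinAt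
  obtain ⟨δ, hδ, C, hC, hδ1, hb⟩ := near_zero_gen one_pos hfd
  set B := fderiv ℂ (fderiv ℂ f) 0 with hB
  set m : ℝ := max 1 ‖e‖ with hm
  have hm1 : 1 ≤ m := le_max_left _ _
  have hme : ‖e‖ ≤ m := le_max_right _ _
  refine ⟨B e e / 2, δ / 2, by positivity, C * m ^ 3, by positivity, by linarith, ?_⟩
  intro p x hp hx
  set φ : ℂ → ℂ := fun y => f (p + y • e) - y * fderiv ℂ f p e - y ^ 2 * (B e e / 2) with hφ
  have hmem : ∀ y ∈ closedBall (0 : ℂ) ‖x‖, ‖p + y • e‖ < δ := by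
    intro y hy
    rw [mem_closedBall_zero_iff] at hy
    calc ‖p + y • e‖ ≤ ‖p‖ + ‖y • e‖ := norm_add_le _ _
      _ = ‖p‖ + ‖y‖ * ‖e‖ := by rw [norm_smul]
      _ ≤ ‖p‖ + ‖x‖ * ‖e‖ := by gcongr
      _ < δ := by linarith
  have hder : ∀ y ∈ closedBall (0 : ℂ) ‖x‖, HasDerivWithinAt φ
      (fderiv ℂ f (p + y • e) e - fderiv ℂ f p e - y * B e e) (closedBall 0 ‖x‖) y := by
    intro y hy
    apply HasDerivAt.hasDerivWithinAt
    have hyb : p + y • e ∈ ball (0 : E) 1 := by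
      rw [mem_ball_zero_iff]; linarith [hmem y hy]
    have h1 : HasFDerivAt f (fderiv ℂ f (p + y • e)) (p + y • e) :=
      (hf.differentiableAt (isOpen_ball.mem_nhds hyb)).hasFDerivAt
    have h2 : HasDerivAt (fun y : ℂ => p + y • e) e y := by
      simpa using ((hasDerivAt_id y).smul_const e).const_add p
    have h3 := h1.comp_hasDerivAt y h2
    have h4 := ((hasDerivAt_id y).mul_const (fderiv ℂ f p e))
    have h5 := ((hasDerivAt_pow 2 y).mul_const (B e e / 2))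
    have h6 := (h3.sub h4).sub h5
    refine h6.congr_deriv ?_
    push_cast
    ring
  have hbound : ∀ y ∈ closedBall (0 : ℂ) ‖x‖,
      ‖fderiv ℂ f (p + y • e) e - fderiv ℂ f p e - y * B e e‖ ≤
        C * m ^ 3 * ‖x‖ * (‖p‖ + ‖x‖) := by
    intro y hy
    have hy' : ‖y‖ ≤ ‖x‖ := by simpa using hy
    have h1 := hb (p + y • e) p (hmem y hy) (by linarith)
    have e1 : (fderiv ℂ f (p + y • e) - fderiv ℂ f p - B (p + y • e - p)) e =
        fderiv ℂ f (p + y • e) e - fderiv ℂ f p e - y * B e e := by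
      simp [smul_eq_mul]
    rw [← e1]
    refine (ContinuousLinearMap.le_opNorm _ _).trans ?_
    have h2 : max ‖p + y • e‖ ‖p‖ ≤ m * (‖p‖ + ‖x‖) := by
      apply max_le
      · calc ‖p + y • e‖ ≤ ‖p‖ + ‖y • e‖ := norm_add_le _ _
          _ = ‖p‖ + ‖y‖ * ‖e‖ := by rw [norm_smul]
          _ ≤ 1 * ‖p‖ + ‖x‖ * m := by rw [one_mul]; gcongr
          _ ≤ m * ‖p‖ + ‖x‖ * m := by gcongr
          _ = m * (‖p‖ + ‖x‖) := by ring
      · calc ‖p‖ = 1 * ‖p‖ := (one_mul _).symm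
          _ ≤ m * ‖p‖ := by gcongr
          _ ≤ m * (‖p‖ + ‖x‖) := by
              have := norm_nonneg x
              gcongr
              linarith
    have h3 : ‖p + y • e - p‖ ≤ ‖x‖ * m := by
      rw [add_sub_cancel_left, norm_smul]
      gcongr
    calc ‖fderiv ℂ f (p + y • e) - fderiv ℂ f p - B (p + y • e - p)‖ * ‖e‖
        ≤ (C * max ‖p + y • e‖ ‖p‖ * ‖p + y • e - p‖) * ‖e‖ := by gcongr
      _ ≤ (C * (m * (‖p‖ + ‖x‖)) * (‖x‖ * m)) * m := by gcongr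
      _ = C * m ^ 3 * ‖x‖ * (‖p‖ + ‖x‖) := by ring
  have key := (convex_closedBall (0 : ℂ) ‖x‖).norm_image_sub_le_of_norm_hasDerivWithin_le
    (𝕜 := ℂ) hder hbound (x := 0) (y := x) (by simp) (by simp)
  simp only [hφ, zero_smul, add_zero, zero_mul, sub_zero, ne_eq, OfNat.ofNat_ne_zero,
    not_false_eq_true, zero_pow] at key
  have e2 : f (p + x • e) - x * fderiv ℂ f p e - x ^ 2 * (B e e / 2) - f p =
      f (p + x • e) - f p - x * fderiv ℂ f p e - x ^ 2 * (B e e / 2) := by ring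
  rw [e2] at key
  calc _ ≤ _ := key
    _ = _ := by ring

end Remainder

/-- Coefficients of `f` along the second axis. -/
noncomputable def aco (f : E2 → ℂ) (k : ℕ) : ℂ := tc k (fun ζ : ℂ => f (pt 0 ζ))

/-- Coefficients of `∂₁ f` along the second axis. -/
noncomputable def bco (f : E2 → ℂ) (k : ℕ) : ℂ :=
  tc k (fun ζ : ℂ => fderiv ℂ f (pt 0 ζ) (pt 1 0))

theorem pt_right_mem {x : ℂ} (h : ‖x‖ < 1) : pt 0 x ∈ ball (0 : E2) 1 := by
  apply pt_mem_ball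
  rw [norm_zero]
  nlinarith [norm_nonneg x]

theorem norm_pt_right (x : ℂ) : ‖pt 0 x‖ = ‖x‖ := by
  have : pt 0 x = x • pt 0 1 := by rw [smul_pt]; simp
  rw [this, norm_smul, norm_pt_zero_one, mul_one]

theorem pt_right_diff {s : Set ℂ} : DifferentiableOn ℂ (fun ζ : ℂ => pt 0 ζ) s := fun ζ _ =>
  (differentiableAt_pt (differentiableAt_const _) differentiableAt_id).differentiableWithinAt

theorem aco_diff {f : E2 → ℂ} (hf : DifferentiableOn ℂ f (ball 0 1)) :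
    DifferentiableOn ℂ (fun ζ : ℂ => f (pt 0 ζ)) (ball 0 1) :=
  hf.comp pt_right_diff (fun ζ hζ => pt_right_mem (by simpa using hζ))

theorem bco_diff {f : E2 → ℂ} (hf : DifferentiableOn ℂ f (ball 0 1)) :
    DifferentiableOn ℂ (fun ζ : ℂ => fderiv ℂ f (pt 0 ζ) (pt 1 0)) (ball 0 1) :=
  (differentiableOn_fderiv_apply isOpen_ball hf (pt 1 0)).comp pt_right_diff
    (fun ζ hζ => pt_right_mem (by simpa using hζ))

theorem tc_mul_sq {f : ℂ → ℂ} {R : ℝ} (hR : 0 < R) (hf : DifferentiableOn ℂ f (ball 0 R)) (n : ℕ) :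
    tc (n + 2) (fun z => z ^ 2 * f z) = tc n f := by
  have h1 : (fun z : ℂ => z ^ 2 * f z) = fun z => z * (z * f z) := by
    ext z; ring
  have h2 : DifferentiableOn ℂ (fun z => z * f z) (ball 0 R) := differentiableOn_id.mul hf
  rw [h1, tc_succ hR h2 (n + 1), tc_succ hR hf n]

theorem tc_const_mul {f : ℂ → ℂ} {R : ℝ} (hR : 0 < R) (hf : DifferentiableOn ℂ f (ball 0 R))
    (n : ℕ) (c : ℂ) : tc n (fun z => c * f z) = c * tc n f := by
  have f1 := tc_clm (c • ContinuousLinearMap.id ℂ ℂ) n (contDiffAt_of_ball hR hf n)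
  simpa [smul_eq_mul] using f1

/-- The Taylor coefficients of `l ↦ f (l² z₁, l z₂)`. -/
theorem tc_weighted {f : E2 → ℂ} (hf : DifferentiableOn ℂ f (ball 0 1)) :
    ∃ s : ℂ, ∀ z1 z2 : ℂ, ‖z1‖ ≤ 1 → ‖z2‖ ≤ 1 →
      (∀ k ≤ 4, tc k (fun l : ℂ => f (pt (l ^ 2 * z1) (l * z2))) =
        z2 ^ k * aco f k + tc k (fun l : ℂ => l ^ 2 * (z1 * fderiv ℂ f (pt 0 (l * z2)) (pt 1 0))) +
          (if k = 4 then z1 ^ 2 * s else 0)) := by
  obtain ⟨s, δ, hδ, C, hC, hδ1, hb⟩ := second_exp hf (pt 1 0)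
  refine ⟨s, fun z1 z2 h1 h2 k hk => ?_⟩
  have hmem2 : ∀ l ∈ ball (0 : ℂ) (δ / 2), l * z2 ∈ ball (0 : ℂ) 1 := by
    intro l hl
    rw [mem_ball_zero_iff] at *
    rw [norm_mul]
    calc ‖l‖ * ‖z2‖ ≤ ‖l‖ * 1 := by gcongr
      _ < 1 := by linarith
  have hmem : ∀ l ∈ ball (0 : ℂ) (δ / 2), pt (l ^ 2 * z1) (l * z2) ∈ ball (0 : E2) 1 := by
    intro l hl
    rw [mem_ball_zero_iff] at hl
    apply pt_mem_ball
    have hl2 : ‖l‖ < 1 / 2 := by linarith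
    have e1 : ‖l ^ 2 * z1‖ ≤ 1 / 2 := by
      rw [norm_mul, norm_pow]
      calc ‖l‖ ^ 2 * ‖z1‖ ≤ (1 / 2) ^ 2 * 1 := by gcongr
        _ ≤ 1 / 2 := by norm_num
    have e2 : ‖l * z2‖ ≤ 1 / 2 := by
      rw [norm_mul]
      calc ‖l‖ * ‖z2‖ ≤ (1 / 2) * 1 := by gcongr
        _ = 1 / 2 := by norm_num
    have e3 := norm_nonneg (l ^ 2 * z1)
    have e4 := norm_nonneg (l * z2)
    nlinarith
  have hδ2 : 0 < δ / 2 := by linarith
  have dH : DifferentiableOn ℂ (fun l : ℂ => f (pt (l ^ 2 * z1) (l * z2))) (ball 0 (δ / 2)) := by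
    apply hf.comp _ hmem
    intro l _
    exact (differentiableAt_pt (by fun_prop) (by fun_prop)).differentiableWithinAt
  have dA : DifferentiableOn ℂ (fun l : ℂ => f (pt 0 (l * z2))) (ball 0 (δ / 2)) :=
    (aco_diff hf).comp (by fun_prop) hmem2
  have dB : DifferentiableOn ℂ (fun l : ℂ => fderiv ℂ f (pt 0 (l * z2)) (pt 1 0))
      (ball 0 (δ / 2)) :=
    (bco_diff hf).comp (f := fun l : ℂ => l * z2) (by fun_prop) hmem2
  have dB2 : DifferentiableOn ℂ (fun l : ℂ => l ^ 2 * (z1 * fderiv ℂ f (pt 0 (l * z2)) (pt 1 0)))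
      (ball 0 (δ / 2)) := by
    apply DifferentiableOn.mul (by fun_prop)
    exact dB.const_mul _
  have dS : DifferentiableOn ℂ (fun l : ℂ => l ^ 4 • (z1 ^ 2 * s)) (ball 0 (δ / 2)) := by fun_prop
  have h0 : tc k (fun l : ℂ => f (pt (l ^ 2 * z1) (l * z2)) - (f (pt 0 (l * z2)) +
      l ^ 2 * (z1 * fderiv ℂ f (pt 0 (l * z2)) (pt 1 0)) + l ^ 4 • (z1 ^ 2 * s))) = 0 := by
    apply tc_eq_zero_of_bound k (R := δ / 2) (C := C * 2) hδ2
    · exact dH.sub ((dA.add dB2).add dS)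
    · intro l hl
      rw [mem_ball_zero_iff] at hl
      have hl1 : ‖l‖ ≤ 1 := by linarith
      have hl0 := norm_nonneg l
      have hp : ‖pt 0 (l * z2)‖ ≤ ‖l‖ := by
        rw [norm_pt_right, norm_mul]
        exact mul_le_of_le_one_right hl0 h2
      have hx : ‖l ^ 2 * z1‖ ≤ ‖l‖ ^ 2 := by
        rw [norm_mul, norm_pow]
        exact mul_le_of_le_one_right (by positivity) h1
      have hx1 : ‖l ^ 2 * z1‖ ≤ ‖l‖ := hx.trans (by nlinarith)
      have key := hb (pt 0 (l * z2)) (l ^ 2 * z1) (by linarith)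
        (by rw [norm_pt_one_zero, mul_one]; linarith)
      have e1 : pt 0 (l * z2) + (l ^ 2 * z1) • pt 1 0 = pt (l ^ 2 * z1) (l * z2) := by
        rw [smul_pt, pt_add]; simp
      rw [e1] at key
      have e2 : f (pt (l ^ 2 * z1) (l * z2)) - (f (pt 0 (l * z2)) +
          l ^ 2 * (z1 * fderiv ℂ f (pt 0 (l * z2)) (pt 1 0)) + l ^ 4 • (z1 ^ 2 * s)) =
          f (pt (l ^ 2 * z1) (l * z2)) - f (pt 0 (l * z2)) -
            l ^ 2 * z1 * fderiv ℂ f (pt 0 (l * z2)) (pt 1 0) - (l ^ 2 * z1) ^ 2 * s := by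
        simp only [smul_eq_mul]; ring
      rw [e2]
      calc _ ≤ C * ‖l ^ 2 * z1‖ ^ 2 * (‖pt 0 (l * z2)‖ + ‖l ^ 2 * z1‖) := key
        _ ≤ C * (‖l‖ ^ 2) ^ 2 * (‖l‖ + ‖l‖) := by gcongr
        _ = C * 2 * ‖l‖ ^ 5 := by ring
        _ ≤ C * 2 * ‖l‖ ^ (k + 1) := by
            apply mul_le_mul_of_nonneg_left _ (by positivity)
            exact pow_le_pow_of_le_one hl0 hl1 (by omega)
  have dAB : DifferentiableOn ℂ (fun l : ℂ => f (pt 0 (l * z2)) +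
      l ^ 2 * (z1 * fderiv ℂ f (pt 0 (l * z2)) (pt 1 0))) (ball 0 (δ / 2)) := dA.add dB2
  have dSum : DifferentiableOn ℂ (fun l : ℂ => f (pt 0 (l * z2)) +
      l ^ 2 * (z1 * fderiv ℂ f (pt 0 (l * z2)) (pt 1 0)) + l ^ 4 • (z1 ^ 2 * s))
      (ball 0 (δ / 2)) := dAB.add dS
  have h00 := tc_sub k (contDiffAt_of_ball hδ2 dH k) (contDiffAt_of_ball hδ2 dSum k)
  rw [h00, sub_eq_zero] at h0
  have h3 : tc k (fun l : ℂ => f (pt 0 (l * z2)) +
      l ^ 2 * (z1 * fderiv ℂ f (pt 0 (l * z2)) (pt 1 0)) + l ^ 4 • (z1 ^ 2 * s)) =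
      z2 ^ k * aco f k + tc k (fun l : ℂ => l ^ 2 * (z1 * fderiv ℂ f (pt 0 (l * z2)) (pt 1 0))) +
          (if k = 4 then z1 ^ 2 * s else 0) := by
    have e1 := tc_add k (contDiffAt_of_ball hδ2 dAB k) (contDiffAt_of_ball hδ2 dS k)
    have e2 := tc_add k (contDiffAt_of_ball hδ2 dA k) (contDiffAt_of_ball hδ2 dB2 k)
    have e3 := tc_comp_smul one_pos (aco_diff hf) k z2
    simp only [smul_eq_mul] at e3
    have e4 := tc_pow_smul k 4 (z1 ^ 2 * s)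
    have e5 : tc k (fun l : ℂ => f (pt 0 (l * z2)) +
      l ^ 2 * (z1 * fderiv ℂ f (pt 0 (l * z2)) (pt 1 0)) + l ^ 4 • (z1 ^ 2 * s)) =
      tc k (fun l : ℂ => f (pt 0 (l * z2)) +
      l ^ 2 * (z1 * fderiv ℂ f (pt 0 (l * z2)) (pt 1 0))) + tc k (fun l : ℂ => l ^ 4 • (z1 ^ 2 * s)) :=
      e1
    rw [e5, e2, e3, e4]
    rfl
  rw [← h3, ← h0]

/-- The middle term. -/
theorem tc_mid {f : E2 → ℂ} (hf : DifferentiableOn ℂ f (ball 0 1)) (z1 z2 : ℂ) (h2 : ‖z2‖ ≤ 1)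
    (k : ℕ) : tc (k + 2) (fun l : ℂ => l ^ 2 * (z1 * fderiv ℂ f (pt 0 (l * z2)) (pt 1 0))) =
      z1 * z2 ^ k * bco f k := by
  have hmem2 : ∀ l ∈ ball (0 : ℂ) 1, l * z2 ∈ ball (0 : ℂ) 1 := by
    intro l hl
    rw [mem_ball_zero_iff] at *
    rw [norm_mul]
    calc ‖l‖ * ‖z2‖ ≤ ‖l‖ * 1 := by gcongr
      _ < 1 := by linarith
  have dB : DifferentiableOn ℂ (fun l : ℂ => fderiv ℂ f (pt 0 (l * z2)) (pt 1 0)) (ball 0 1) :=
    (bco_diff hf).comp (f := fun l : ℂ => l * z2) (by fun_prop) hmem2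
  rw [tc_mul_sq one_pos (dB.const_mul z1) k, tc_const_mul one_pos dB k z1]
  have e3 := tc_comp_smul one_pos (bco_diff hf) k z2
  simp only [smul_eq_mul] at e3
  rw [e3, bco]
  ring

theorem tc_mid_zero {f : E2 → ℂ} (hf : DifferentiableOn ℂ f (ball 0 1)) (z1 z2 : ℂ) (h2 : ‖z2‖ ≤ 1)
    {k : ℕ} (hk : k < 2) :
    tc k (fun l : ℂ => l ^ 2 * (z1 * fderiv ℂ f (pt 0 (l * z2)) (pt 1 0))) = 0 := by
  have hmem2 : ∀ l ∈ ball (0 : ℂ) 1, l * z2 ∈ ball (0 : ℂ) 1 := by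
    intro l hl
    rw [mem_ball_zero_iff] at *
    rw [norm_mul]
    calc ‖l‖ * ‖z2‖ ≤ ‖l‖ * 1 := by gcongr
      _ < 1 := by linarith
  have dB : DifferentiableOn ℂ (fun l : ℂ => z1 * fderiv ℂ f (pt 0 (l * z2)) (pt 1 0))
      (ball 0 1) :=
    ((bco_diff hf).comp (f := fun l : ℂ => l * z2) (by fun_prop) hmem2).const_mul z1
  obtain ⟨r, hr, M, hM0, hsub, hM⟩ := exists_bound isOpen_ball dB (mem_ball_self one_pos)
  have hr' : 0 < min r 1 := lt_min hr one_pos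
  apply tc_eq_zero_of_bound k (R := min r 1) (C := M) hr'
  · apply DifferentiableOn.mul (by fun_prop)
    exact dB.mono (ball_subset_ball (min_le_right _ _))
  · intro l hl
    have hl1 : ‖l‖ ≤ 1 := by
      rw [mem_ball_zero_iff] at hl
      exact hl.le.trans (min_le_right _ _)
    have h3 := hM l (ball_subset_ball (min_le_left _ _) hl)
    rw [norm_mul, norm_pow]
    calc ‖l‖ ^ 2 * ‖z1 * fderiv ℂ f (pt 0 (l * z2)) (pt 1 0)‖ ≤ ‖l‖ ^ 2 * M := by gcongr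
      _ = M * ‖l‖ ^ 2 := mul_comm _ _
      _ ≤ M * ‖l‖ ^ (k + 1) := by
          apply mul_le_mul_of_nonneg_left _ hM0
          exact pow_le_pow_of_le_one (norm_nonneg _) hl1 (by omega)

end Pool.Agent.KS7_39.LJ
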