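import Mathlib
import Pool.Agent.KS7_39.H840R2.LJD

set_option autoImplicit false

namespace Pool.Agent.KS7_39.LJ

open Metric Set Filter Topology Pool.Agent.KS7_39.H540

/-- Montel's theorem for locally bounded sequences of holomorphic maps of the ball. -/
theorem montel_gen {h : ℕ → E2 → E2} (hd : ∀ n, DifferentiableOn ℂ (h n) (ball 0 1))
    (hbd : ∀ r : ℝ, r < 1 → ∃ C : ℝ, 0 ≤ C ∧ ∀ n, ∀ z : E2, ‖z‖ ≤ r → ‖h n z‖ ≤ C) :
    ∃ φ : ℕ → ℕ, StrictMono φ ∧ ∃ g : E2 → E2,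
      TendstoLocallyUniformlyOn (fun n => h (φ n)) g atTop (ball 0 1) := by
  -- the equi-Lipschitz estimate
  have hL : ∀ z ∈ ball (0 : E2) 1, ∃ K : ℝ, 0 < K ∧ ∃ δ : ℝ, 0 < δ ∧ ball z δ ⊆ ball 0 1 ∧
      ∀ n, ∀ w ∈ ball z δ, ‖h n w - h n z‖ ≤ K * ‖w - z‖ := by
    intro z hz
    rw [mem_ball_zero_iff] at hz
    set R := (1 - ‖z‖) / 2 with hR
    have hR0 : 0 < R := by simp only [hR]; linarith
    obtain ⟨C, hC0, hC⟩ := hbd (‖z‖ + R) (by simp only [hR]; linarith)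
    have hsub : ∀ w ∈ ball z R, ‖w‖ ≤ ‖z‖ + R := by
      intro w hw
      rw [mem_ball, dist_eq_norm] at hw
      calc ‖w‖ = ‖z + (w - z)‖ := by simp
        _ ≤ ‖z‖ + ‖w - z‖ := norm_add_le _ _
        _ ≤ _ := by linarith
    have hsub1 : ball z R ⊆ ball 0 1 := by
      intro w hw
      rw [mem_ball_zero_iff]
      have := hsub w hw
      simp only [hR] at this
      linarith
    refine ⟨4 * (C + 1) / R, by positivity, R / 2, by positivity,
      (ball_subset_ball (by linarith)).trans hsub1, fun n w hw => ?_⟩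
    exact lipschitz_half ((hd n).mono hsub1) (fun w hw => (hC n w (hsub w hw)).trans
      (by linarith)) (mem_ball_self (by positivity)) hw
  -- values on a dense sequence
  set d : ℕ → E2 := TopologicalSpace.denseSeq E2 with hdd
  have hdense : DenseRange d := TopologicalSpace.denseRange_denseSeq E2
  have hbd' : ∀ k, ∃ C : ℝ, ∀ n, d k ∈ ball (0 : E2) 1 → ‖h n (d k)‖ ≤ C := by
    intro k
    by_cases hk : d k ∈ ball (0 : E2) 1
    · rw [mem_ball_zero_iff] at hk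
      obtain ⟨C, hC0, hC⟩ := hbd _ hk
      exact ⟨C, fun n _ => hC n _ le_rfl⟩
    · exact ⟨0, fun n h => absurd h hk⟩
  choose C hC using hbd'
  classical
  set x : ℕ → ℕ → E2 := fun n k => if d k ∈ ball (0 : E2) 1 then h n (d k) else 0 with hx
  have hcomp : IsCompact (Set.pi Set.univ fun k : ℕ => closedBall (0 : E2) |C k|) :=
    isCompact_univ_pi fun k => isCompact_closedBall _ _
  have hxm : ∀ n, x n ∈ Set.pi Set.univ fun k : ℕ => closedBall (0 : E2) |C k| := by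
    intro n k _
    simp only [hx]
    rw [mem_closedBall_zero_iff]
    split_ifs with hk
    · exact (hC k n hk).trans (le_abs_self _)
    · simp
  obtain ⟨a, -, φ, hφ, hlim⟩ := hcomp.tendsto_subseq hxm
  have hk : ∀ k, d k ∈ ball (0 : E2) 1 → CauchySeq fun n => h (φ n) (d k) := by
    intro k hk
    have h1 : Tendsto (fun n => x (φ n) k) atTop (𝓝 (a k)) :=
      ((continuous_apply k).tendsto a).comp hlim
    have h2 : (fun n => x (φ n) k) = fun n => h (φ n) (d k) := by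
      ext1 n
      simp only [hx, if_pos hk]
    rw [h2] at h1
    exact h1.cauchySeq
  have hcau : ∀ z ∈ ball (0 : E2) 1, CauchySeq fun n => h (φ n) z := by
    intro z hz
    obtain ⟨K, hK, δ, hδ, hsub, hLip⟩ := hL z hz
    rw [Metric.cauchySeq_iff']
    intro ε hε
    obtain ⟨k, hkz⟩ : ∃ k, d k ∈ ball z (min δ (ε / (3 * K))) :=
      hdense.exists_mem_open isOpen_ball ⟨z, mem_ball_self (by positivity)⟩
    have hkδ : d k ∈ ball z δ := ball_subset_ball (min_le_left _ _) hkz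
    have hke : ‖d k - z‖ < ε / (3 * K) := by
      have := ball_subset_ball (min_le_right _ _) hkz
      rwa [mem_ball, dist_eq_norm] at this
    have hke' : K * ‖d k - z‖ < ε / 3 := by
      calc K * ‖d k - z‖ < K * (ε / (3 * K)) := by gcongr
        _ = ε / 3 := by field_simp
    obtain ⟨N, hN⟩ := (Metric.cauchySeq_iff'.1 (hk k (hsub hkδ))) (ε / 3) (by positivity)
    refine ⟨N, fun n hn => ?_⟩
    have h1 := hLip (φ n) (d k) hkδ
    have h2 := hLip (φ N) (d k) hkδ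
    have h3 := hN n hn
    rw [dist_eq_norm] at h3 ⊢
    calc ‖h (φ n) z - h (φ N) z‖ = ‖-(h (φ n) (d k) - h (φ n) z) + (h (φ n) (d k) - h (φ N) (d k))
          + (h (φ N) (d k) - h (φ N) z)‖ := by congr 1; abel
      _ ≤ ‖-(h (φ n) (d k) - h (φ n) z)‖ + ‖h (φ n) (d k) - h (φ N) (d k)‖
          + ‖h (φ N) (d k) - h (φ N) z‖ := norm_add₃_le
      _ < ε := by rw [norm_neg]; linarith
  have hex : ∀ z : E2, ∃ w : E2, z ∈ ball (0 : E2) 1 → Tendsto (fun n => h (φ n) z) atTop (𝓝 w) := by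
    intro z
    by_cases hz : z ∈ ball (0 : E2) 1
    · obtain ⟨w, hw⟩ := cauchySeq_tendsto_of_complete (hcau z hz)
      exact ⟨w, fun _ => hw⟩
    · exact ⟨0, fun h => absurd h hz⟩
  choose g hg using hex
  refine ⟨φ, hφ, g, ?_⟩
  rw [Metric.tendstoLocallyUniformlyOn_iff]
  intro ε hε z hz
  obtain ⟨K, hK, δ, hδ, hsub, hLip⟩ := hL z hz
  refine ⟨ball z (min δ (ε / (3 * K))), mem_nhdsWithin_of_mem_nhds (ball_mem_nhds _ (by positivity)),
    ?_⟩
  have h1 := (Metric.tendsto_atTop.1 (hg z hz)) (ε / 3) (by positivity)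
  obtain ⟨N, hN⟩ := h1
  filter_upwards [eventually_ge_atTop N] with n hn w hw
  have hwδ : w ∈ ball z δ := ball_subset_ball (min_le_left _ _) hw
  have hwe : K * ‖w - z‖ ≤ ε / 3 := by
    have := ball_subset_ball (min_le_right _ _) hw
    rw [mem_ball, dist_eq_norm] at this
    calc K * ‖w - z‖ ≤ K * (ε / (3 * K)) := by gcongr
      _ = ε / 3 := by field_simp
  have h2 : ‖g w - g z‖ ≤ ε / 3 := by
    have h3 : Tendsto (fun n => ‖h (φ n) w - h (φ n) z‖) atTop (𝓝 ‖g w - g z‖) :=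
      ((hg w (hsub hwδ)).sub (hg z hz)).norm
    exact le_of_tendsto' h3 fun n => (hLip (φ n) w hwδ).trans hwe
  have h4 := (hLip (φ n) w hwδ).trans hwe
  have h5 := hN n hn
  rw [dist_eq_norm] at h5
  rw [dist_comm, dist_eq_norm]
  calc ‖h (φ n) w - g w‖ = ‖(h (φ n) w - h (φ n) z) + (h (φ n) z - g z) + -(g w - g z)‖ := by
        congr 1; abel
    _ ≤ ‖h (φ n) w - h (φ n) z‖ + ‖h (φ n) z - g z‖ + ‖-(g w - g z)‖ := norm_add₃_le
    _ < ε := by rw [norm_neg]; linarith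

/-- Montel's theorem for the Caratheodory family. -/
theorem montel {h : ℕ → E2 → E2} (hh : ∀ n, Cara (h n)) :
    ∃ φ : ℕ → ℕ, StrictMono φ ∧ ∃ g : E2 → E2,
      TendstoLocallyUniformlyOn (fun n => h (φ n)) g atTop (ball 0 1) := by
  apply montel_gen (fun n => (hh n).diff)
  intro r hr
  obtain ⟨C, hC0, hC⟩ := exists_cara_bound (E := E2) hr
  exact ⟨C, hC0, fun n z hz => hC _ (hh n) z hz⟩

/-- The coefficient `q`. -/
theorem aco_two_eq {h : E2 → E2} (hh : DifferentiableOn ℂ h (ball 0 1)) (i : Fin 2) :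
    aco (cmp h i) 2 = (qf h (pt 0 1)) i := by
  rw [aco, qf]
  have h1 : (fun ζ : ℂ => cmp h i (pt 0 ζ)) = fun ζ : ℂ => co i (h (ζ • pt 0 1)) := by
    ext1 ζ
    rw [smul_pt]
    simp [cmp]
  rw [h1, tc_clm (co i) 2 (contDiffAt_of_ball one_pos (slice_diff hh norm_pt_zero_one.le) 2)]
  rfl

/-- The coefficient `y`. -/
theorem bco_one_eq {h : E2 → E2} (hh : DifferentiableOn ℂ h (ball 0 1)) (i : Fin 2) :
    bco (cmp h i) 1 = (mf h) i := by
  have hb : ball (0 : E2) 1 ∈ 𝓝 (0 : E2) := ball_mem_nhds _ one_pos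
  set B := fderiv ℂ (fderiv ℂ h) 0 with hB
  have hc2 : ContDiffAt ℂ (2 : ℕ) h 0 :=
    (contDiffOn_of_differentiableOn isOpen_ball hh 2).contDiffAt hb
  have hfd : DifferentiableAt ℂ (fderiv ℂ h) 0 := by
    have h1 : ContDiffAt ℂ 1 (fderiv ℂ h) 0 := hc2.fderiv_right (by norm_num)
    exact h1.differentiableAt (by norm_num)
  have hsym : ∀ v w, B v w = B w v := by
    intro v w
    apply second_derivative_symmetric_of_eventually (𝕜 := ℂ) (f := h) (f' := fderiv ℂ h) (x := 0)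
    · filter_upwards [hb] with z hz
      exact (hh.differentiableAt (isOpen_ball.mem_nhds hz)).hasFDerivAt
    · exact hfd.hasFDerivAt
  have hm : mf h = B (pt 1 0) (pt 0 1) := by
    rw [mf]
    apply tc_one
    have h1 : HasDerivAt (fun ζ : ℂ => pt ζ 0) (pt 1 0) 0 :=
      hasDerivAt_pt (hasDerivAt_id 0) (hasDerivAt_const 0 0)
    have h2 : HasFDerivAt (fderiv ℂ h) B (pt 0 0) := by
      rw [pt_zero_zero]; exact hfd.hasFDerivAt
    have h3 : HasDerivAt (fun ζ : ℂ => fderiv ℂ h (pt ζ 0)) (B (pt 1 0)) 0 :=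
      HasFDerivAt.comp_hasDerivAt (f := fun ζ : ℂ => pt ζ 0) (0 : ℂ) h2 h1
    exact h3.clm_apply (hasDerivAt_const (0 : ℂ) (pt 0 1)) |>.congr_deriv (by simp)
  have hy : bco (cmp h i) 1 = co i (B (pt 0 1) (pt 1 0)) := by
    rw [bco]
    have e1 : tc 1 (fun ζ : ℂ => fderiv ℂ (cmp h i) (pt 0 ζ) (pt 1 0)) =
        tc 1 (fun ζ : ℂ => co i (fderiv ℂ h (pt 0 ζ) (pt 1 0))) := by
      apply tc_congr
      filter_upwards [ball_mem_nhds (0 : ℂ) one_pos] with ζ hζ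
      exact fderiv_cmp hh i (pt_right_mem (by simpa using hζ)) _
    rw [e1]
    apply tc_one
    have h1 : HasDerivAt (fun ζ : ℂ => pt 0 ζ) (pt 0 1) 0 :=
      hasDerivAt_pt (hasDerivAt_const 0 0) (hasDerivAt_id 0)
    have h2 : HasFDerivAt (fderiv ℂ h) B (pt 0 0) := by
      rw [pt_zero_zero]; exact hfd.hasFDerivAt
    have h3 : HasDerivAt (fun ζ : ℂ => fderiv ℂ h (pt 0 ζ)) (B (pt 0 1)) 0 :=
      HasFDerivAt.comp_hasDerivAt (f := fun ζ : ℂ => pt 0 ζ) (0 : ℂ) h2 h1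
    have h4 : HasDerivAt (fun ζ : ℂ => fderiv ℂ h (pt 0 ζ) (pt 1 0)) (B (pt 0 1) (pt 1 0)) 0 :=
      h3.clm_apply (hasDerivAt_const (0 : ℂ) (pt 1 0)) |>.congr_deriv (by simp)
    exact (co i).hasFDerivAt.comp_hasDerivAt (0 : ℂ) h4
  rw [hy, hm, hsym]
  rfl

theorem norm_pt_half : ‖pt (1 / 2) (1 / 2)‖ ≤ 1 := by
  have h := norm_pt_sq (1 / 2) (1 / 2)
  norm_num at h
  nlinarith [norm_nonneg (pt (1 / 2) (1 / 2))]

theorem mf_eq {h : E2 → E2} (hh : DifferentiableOn ℂ h (ball 0 1)) :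
    mf h = (4 : ℂ) • qf h (pt (1 / 2) (1 / 2)) - qf h (pt 1 0) - qf h (pt 0 1) := by
  have := qf_pt hh (1 / 2) (1 / 2)
  rw [this]
  module

/-- Continuity of the quadratic coefficients. -/
theorem qf_close {f g : E2 → E2} (hf : DifferentiableOn ℂ f (ball 0 1))
    (hg : DifferentiableOn ℂ g (ball 0 1)) {C : ℝ} (h : ∀ z : E2, ‖z‖ ≤ 1 / 2 → ‖f z - g z‖ ≤ C)
    {u : E2} (hu : ‖u‖ ≤ 1) : ‖qf f u - qf g u‖ ≤ 4 * C := by
  have h1 := norm_tc_two_le (f := fun z => f z - g z) (hf.sub hg) hu (r := 1 / 2) (C := C)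
    (by norm_num) (by norm_num) h
  have h2 := tc_sub 2 (contDiffAt_of_ball one_pos (slice_diff hf hu) 2)
    (contDiffAt_of_ball one_pos (slice_diff hg hu) 2)
  rw [h2] at h1
  calc _ ≤ _ := h1
    _ = 4 * C := by ring

theorem mf_close {f g : E2 → E2} (hf : DifferentiableOn ℂ f (ball 0 1))
    (hg : DifferentiableOn ℂ g (ball 0 1)) {C : ℝ} (h : ∀ z : E2, ‖z‖ ≤ 1 / 2 → ‖f z - g z‖ ≤ C) :
    ‖mf f - mf g‖ ≤ 24 * C := by
  rw [mf_eq hf, mf_eq hg]
  have h1 := qf_close hf hg h norm_pt_half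
  have h2 := qf_close hf hg h norm_pt_one_zero.le
  have h3 := qf_close hf hg h norm_pt_zero_one.le
  have e : (4 : ℂ) • qf f (pt (1 / 2) (1 / 2)) - qf f (pt 1 0) - qf f (pt 0 1) -
      ((4 : ℂ) • qf g (pt (1 / 2) (1 / 2)) - qf g (pt 1 0) - qf g (pt 0 1)) =
      (4 : ℂ) • (qf f (pt (1 / 2) (1 / 2)) - qf g (pt (1 / 2) (1 / 2))) +
        -(qf f (pt 1 0) - qf g (pt 1 0)) + -(qf f (pt 0 1) - qf g (pt 0 1)) := by module
  rw [e]
  refine norm_add₃_le.trans ?_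
  rw [norm_neg, norm_neg, norm_smul]
  norm_num
  linarith

end Pool.Agent.KS7_39.LJ
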