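import Mathlib
import Pool.Agent.KS7_39.H840R2.LJF

set_option autoImplicit false

namespace Pool.Agent.KS7_39.LJ

open Metric Set Filter Topology Pool.Agent.KS7_39.H540

theorem pt_left_eq (z : E2) : z = z 0 • pt 1 0 + z 1 • pt 0 1 := by
  conv_lhs => rw [← pt_eta z, pt_eq]

theorem hasFDerivAt_hst_zero : HasFDerivAt hst (ContinuousLinearMap.id ℂ E2) 0 := by
  have h0 : HasFDerivAt (fun z : E2 => z 0) (co 0) 0 := (co 0).hasFDerivAt
  have h1 : HasFDerivAt (fun z : E2 => z 1) (co 1) 0 := (co 1).hasFDerivAt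
  have k1 : HasFDerivAt (fun z : E2 => z 0 - 3 * Real.sqrt 3 / 2 * z 1 ^ 2 +
      1 / 4 * ((z 0 - Real.sqrt 3 / 2 * z 1 ^ 2) * (-2 * z 0))) (co 0) 0 := by
    have a1 := (h0.sub ((h1.pow 2).const_mul (3 * Real.sqrt 3 / 2 : ℂ))).add
      (((h0.sub ((h1.pow 2).const_mul (Real.sqrt 3 / 2 : ℂ))).mul (h0.const_mul (-2))).const_mul
        (1 / 4 : ℂ))
    refine HasFDerivAt.congr_fderiv (f := fun z : E2 => z 0 - 3 * Real.sqrt 3 / 2 * z 1 ^ 2 +
      1 / 4 * ((z 0 - Real.sqrt 3 / 2 * z 1 ^ 2) * (-2 * z 0))) a1 ?_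
    ext v
    simp
  have k2 : HasFDerivAt (fun z : E2 => z 1 +
      1 / 4 * ((z 0 - Real.sqrt 3 / 2 * z 1 ^ 2) * z 1)) (co 1) 0 := by
    have a1 := h1.add
      (((h0.sub ((h1.pow 2).const_mul (Real.sqrt 3 / 2 : ℂ))).mul h1).const_mul (1 / 4 : ℂ))
    refine HasFDerivAt.congr_fderiv (f := fun z : E2 => z 1 +
      1 / 4 * ((z 0 - Real.sqrt 3 / 2 * z 1 ^ 2) * z 1)) a1 ?_
    ext v
    simp
  have k3 := hasFDerivAt_pt k1 k2
  refine HasFDerivAt.congr_fderiv (f := hst) k3 ?_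
  ext1 v
  simp only [add_apply, ContinuousLinearMap.smulRight_apply, co_apply,
    ContinuousLinearMap.id_apply]
  exact (pt_left_eq v).symm

theorem hst_zero : hst 0 = 0 := by
  simp [hst]

theorem hst_cara : Cara hst :=
  Cara.of_nonneg hst_diff.differentiableOn hst_zero hasFDerivAt_hst_zero.fderiv
    (fun _ hz => hst_pos hz)

theorem hst_face : Face hst := by
  refine ⟨hst_cara, ?_⟩
  rw [aco]
  have h1 : (fun ζ : ℂ => cmp hst 0 (pt 0 ζ)) =
      fun ζ : ℂ => ζ ^ 2 • ((-(3 * Real.sqrt 3 / 2) : ℝ) : ℂ) := by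
    ext ζ
    simp only [cmp, hst, pt_zero_apply, pt_one_apply, smul_eq_mul]
    push_cast
    ring
  rw [h1, tc_pow_smul]
  simp

theorem hst_yc : yc hst = 1 / 4 := by
  rw [yc, bco]
  have h1 : tc 1 (fun ζ : ℂ => fderiv ℂ (cmp hst 1) (pt 0 ζ) (pt 1 0)) =
      tc 1 (fun ζ : ℂ => ζ ^ 1 • (1 / 4 : ℂ)) := by
    congr 1
    ext ζ
    have k0 : DifferentiableAt ℂ (cmp hst 1) (pt 0 ζ) := by
      have := hst_diff (pt 0 ζ)
      exact (co 1).differentiableAt.comp _ this
    have hc : HasDerivAt (fun s : ℂ => pt s ζ) (pt 1 0) 0 :=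
      hasDerivAt_pt (hasDerivAt_id 0) (hasDerivAt_const 0 ζ)
    have k1 : HasDerivAt (fun s : ℂ => cmp hst 1 (pt s ζ))
        (fderiv ℂ (cmp hst 1) (pt 0 ζ) (pt 1 0)) 0 :=
      HasFDerivAt.comp_hasDerivAt (f := fun s : ℂ => pt s ζ) (0 : ℂ) k0.hasFDerivAt hc
    have k2 : HasDerivAt (fun s : ℂ => cmp hst 1 (pt s ζ)) (1 / 4 * (1 * ζ)) 0 := by
      have e : (fun s : ℂ => cmp hst 1 (pt s ζ)) =
          fun s : ℂ => ζ + 1 / 4 * ((s - Real.sqrt 3 / 2 * ζ ^ 2) * ζ) := by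
        ext s
        simp [cmp, hst]
      rw [e]
      exact ((((hasDerivAt_id (0 : ℂ)).sub_const _).mul_const ζ).const_mul (1 / 4 : ℂ)).const_add ζ
    rw [k1.unique k2]
    simp [smul_eq_mul]
    ring
  rw [h1, tc_pow_smul]
  simp

/-! ### The rotation -/

/-- Conjugation of a vector field by the unitary map `diag(-1, i)`. -/
noncomputable def rot (h : E2 → E2) (z : E2) : E2 :=
  pt (-(h (pt (-z 0) (Complex.I * z 1)) 0)) (-Complex.I * h (pt (-z 0) (Complex.I * z 1)) 1)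

/-- The unitary map. -/
noncomputable def U (z : E2) : E2 := pt (-z 0) (Complex.I * z 1)

theorem norm_U (z : E2) : ‖U z‖ = ‖z‖ := by
  have h1 : ‖U z‖ ^ 2 = ‖z‖ ^ 2 := by
    rw [U, norm_pt_sq, norm_sq_two z, norm_neg, norm_mul, Complex.norm_I, one_mul]
  have h2 := norm_nonneg (U z)
  have h3 := norm_nonneg z
  nlinarith [sq_nonneg (‖U z‖ - ‖z‖), sq_nonneg (‖U z‖ + ‖z‖)]

/-- The unitary map as a continuous linear map. -/
noncomputable def UL : E2 →L[ℂ] E2 :=
  (-(co 0)).smulRight (pt 1 0) + (Complex.I • co 1).smulRight (pt 0 1)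

/-- Its inverse. -/
noncomputable def VL : E2 →L[ℂ] E2 :=
  (-(co 0)).smulRight (pt 1 0) + (-Complex.I • co 1).smulRight (pt 0 1)

theorem UL_apply (z : E2) : UL z = U z := by
  rw [U, pt_eq]; rfl

theorem VL_apply (z : E2) : VL z = pt (-z 0) (-Complex.I * z 1) := by
  rw [pt_eq]; rfl

theorem VL_UL (z : E2) : VL (UL z) = z := by
  rw [VL_apply, UL_apply, U, pt_zero_apply, pt_one_apply]
  have : -Complex.I * (Complex.I * z 1) = z 1 := by
    rw [← mul_assoc, neg_mul, Complex.I_mul_I]; ring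
  rw [this, neg_neg, pt_eta]

theorem UL_VL (z : E2) : UL (VL z) = z := by
  rw [UL_apply, VL_apply, U, pt_zero_apply, pt_one_apply]
  have : Complex.I * (-Complex.I * z 1) = z 1 := by
    rw [← mul_assoc, mul_neg, Complex.I_mul_I]; ring
  rw [this, neg_neg, pt_eta]

theorem norm_UL (z : E2) : ‖UL z‖ = ‖z‖ := by rw [UL_apply, norm_U]

theorem norm_VL (z : E2) : ‖VL z‖ = ‖z‖ := by
  rw [← norm_UL (VL z), UL_VL]

theorem rot_eq (h : E2 → E2) : rot h = fun z => VL (h (UL z)) := by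
  ext1 z
  rw [VL_apply, UL_apply]
  rfl

theorem rot_cara {h : E2 → E2} (hh : Cara h) : Cara (rot h) := by
  have hmem : ∀ z ∈ ball (0 : E2) 1, UL z ∈ ball (0 : E2) 1 := by
    intro z hz
    rw [mem_ball_zero_iff] at *
    rwa [norm_UL]
  rw [rot_eq]
  refine ⟨?_, ?_, ?_, ?_⟩
  · exact VL.differentiable.comp_differentiableOn
      (hh.diff.comp UL.differentiable.differentiableOn hmem)
  · show VL (h (UL 0)) = 0
    rw [map_zero, hh.zero, map_zero]
  · have h1 : HasFDerivAt h (ContinuousLinearMap.id ℂ E2) (UL 0) := by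
      rw [map_zero, ← hh.fder]
      exact (hh.diff.differentiableAt (ball_mem_nhds _ one_pos)).hasFDerivAt
    have h2 : HasFDerivAt (fun z => h (UL z)) ((ContinuousLinearMap.id ℂ E2).comp UL) 0 :=
      h1.comp (0 : E2) UL.hasFDerivAt
    have h3 : HasFDerivAt (fun z => VL (h (UL z)))
        (VL.comp ((ContinuousLinearMap.id ℂ E2).comp UL)) 0 :=
      VL.hasFDerivAt.comp (0 : E2) h2
    rw [h3.fderiv]
    ext1 v
    exact VL_UL v
  · intro z hz hz0
    have h1 : UL z ≠ 0 := by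
      intro h
      apply hz0
      rw [← norm_eq_zero, ← norm_UL, h, norm_zero]
    have h2 := hh.pos _ (hmem z hz) h1
    have h3 : inner ℂ z (VL (h (UL z))) = inner ℂ (UL z) (h (UL z)) := by
      set w := h (UL z) with hw
      have e1 : inner ℂ z (VL w) = (starRingEnd ℂ) (z 0) * (VL w) 0 +
          (starRingEnd ℂ) (z 1) * (VL w) 1 := by
        conv_lhs => rw [← pt_eta z]
        rw [inner_pt]
      rw [e1, UL_apply, U, inner_pt, VL_apply, pt_zero_apply, pt_one_apply, map_neg, map_mul,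
        Complex.conj_I]
      ring
    show 0 < (inner ℂ z (VL (h (UL z)))).re
    rw [h3]
    exact h2

theorem rot_face {h : E2 → E2} (hh : Face h) : Face (rot h) := by
  refine ⟨rot_cara hh.cara, ?_⟩
  have h1 : aco (cmp (rot h) 0) 2 = aco (cmp h 0) 2 := by
    rw [aco, aco]
    have e1 : (fun ζ : ℂ => cmp (rot h) 0 (pt 0 ζ)) =
        fun ζ : ℂ => (-1) * ((fun w : ℂ => cmp h 0 (pt 0 w)) (ζ • Complex.I)) := by
      ext ζ
      simp only [cmp, rot, pt_zero_apply, pt_one_apply, neg_zero, smul_eq_mul, neg_mul, one_mul]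
      rw [mul_comm Complex.I ζ]
    have d := aco_diff (cmp_diff hh.cara.diff 0)
    have d2 : DifferentiableOn ℂ (fun ζ : ℂ => (fun w : ℂ => cmp h 0 (pt 0 w)) (ζ • Complex.I))
        (ball 0 1) := by
      apply d.comp (by fun_prop)
      intro ζ hζ
      rw [mem_ball_zero_iff] at *
      rw [norm_smul, Complex.norm_I, mul_one]
      exact hζ
    rw [e1, tc_const_mul one_pos d2, tc_comp_smul one_pos d, smul_eq_mul, Complex.I_sq]
    ring
  rw [h1]
  exact hh.q

theorem rot_yc {h : E2 → E2} (hh : Cara h) : yc (rot h) = -yc h := by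
  rw [yc, yc, bco, bco]
  have hmem : ∀ z ∈ ball (0 : E2) 1, UL z ∈ ball (0 : E2) 1 := by
    intro z hz
    rw [mem_ball_zero_iff] at *
    rwa [norm_UL]
  have d := bco_diff (cmp_diff hh.diff 1)
  have e1 : tc 1 (fun ζ : ℂ => fderiv ℂ (cmp (rot h) 1) (pt 0 ζ) (pt 1 0)) =
      tc 1 (fun ζ : ℂ => Complex.I * ((fun w : ℂ => fderiv ℂ (cmp h 1) (pt 0 w) (pt 1 0))
        (ζ • Complex.I))) := by
    apply tc_congr
    filter_upwards [ball_mem_nhds (0 : ℂ) one_pos] with ζ hζ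
    have hζ1 : ‖ζ‖ < 1 := by simpa using hζ
    have hm := pt_right_mem hζ1
    have hm2 : pt 0 (ζ • Complex.I) ∈ ball (0 : E2) 1 :=
      pt_right_mem (by rw [norm_smul, Complex.norm_I, mul_one]; exact hζ1)
    rw [fderiv_cmp (rot_cara hh).diff 1 hm, fderiv_cmp hh.diff 1 hm2]
    have hU : UL (pt 0 ζ) = pt 0 (ζ • Complex.I) := by
      rw [UL_apply, U, pt_zero_apply, pt_one_apply, neg_zero, smul_eq_mul, mul_comm]
    have h1 : HasFDerivAt h (fderiv ℂ h (pt 0 (ζ • Complex.I))) (UL (pt 0 ζ)) := by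
      rw [hU]
      exact (hh.diff.differentiableAt (isOpen_ball.mem_nhds hm2)).hasFDerivAt
    have h2 : HasFDerivAt (fun z => h (UL z)) ((fderiv ℂ h (pt 0 (ζ • Complex.I))).comp UL)
        (pt 0 ζ) := h1.comp (pt 0 ζ) UL.hasFDerivAt
    have h3 : HasFDerivAt (fun z => VL (h (UL z)))
        (VL.comp ((fderiv ℂ h (pt 0 (ζ • Complex.I))).comp UL)) (pt 0 ζ) :=
      VL.hasFDerivAt.comp (pt 0 ζ) h2
    rw [rot_eq, h3.fderiv]
    have hU1 : UL (pt 1 0) = (-1 : ℂ) • pt 1 0 := by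
      rw [UL_apply, U, pt_zero_apply, pt_one_apply, smul_pt]; simp
    simp only [ContinuousLinearMap.comp_apply]
    rw [hU1, map_smul, map_smul, VL_apply]
    simp
  have d2 : DifferentiableOn ℂ (fun ζ : ℂ => (fun w : ℂ => fderiv ℂ (cmp h 1) (pt 0 w) (pt 1 0))
      (ζ • Complex.I)) (ball 0 1) := by
    apply d.comp (by fun_prop)
    intro ζ hζ
    rw [mem_ball_zero_iff] at *
    rw [norm_smul, Complex.norm_I, mul_one]
    exact hζ
  rw [e1, tc_const_mul one_pos d2, tc_comp_smul one_pos d, smul_eq_mul, pow_one, ← mul_assoc,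
    Complex.I_mul_I]
  ring

/-! ### The maximiser -/

theorem yc_bound : ∃ C : ℝ, ∀ h : E2 → E2, Cara h → ‖yc h‖ ≤ C := by
  obtain ⟨C, hC0, hC⟩ := exists_cara_bound (E := E2) (r := 1 / 2) (by norm_num)
  refine ⟨24 * C, fun h hh => ?_⟩
  have h1 := mf_close hh.diff (g := fun _ => 0) (differentiableOn_const 0) (C := C)
    (fun z hz => by rw [sub_zero]; exact hC h hh z hz)
  have h2 : mf (fun _ : E2 => (0 : E2)) = 0 := by
    have hq : ∀ u : E2, qf (fun _ : E2 => (0 : E2)) u = 0 := by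
      intro u
      rw [qf]
      have := tc_pow_smul 2 0 (0 : E2)
      simp only [smul_zero, ite_self] at this
      exact this
    rw [mf_eq (differentiableOn_const 0), hq, hq, hq]
    simp
  rw [h2, sub_zero] at h1
  rw [yc, bco_one_eq hh.diff 1]
  exact (norm_apply_le_two _ _).trans h1

theorem exists_max : ∃ h, Face h ∧ ∀ g, Face g → (yc g).re ≤ (yc h).re := by
  obtain ⟨C, hC⟩ := yc_bound
  set S : Set ℝ := (fun g => (yc g).re) '' {g | Face g} with hS
  have hSn : S.Nonempty := ⟨_, ⟨hst, hst_face, rfl⟩⟩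
  have hSb : BddAbove S := by
    refine ⟨C, ?_⟩
    rintro _ ⟨g, hg, rfl⟩
    exact ((le_abs_self _).trans (Complex.abs_re_le_norm _)).trans (hC g (Face.cara hg))
  obtain ⟨u, -, hu, hmem⟩ := exists_seq_tendsto_sSup hSn hSb
  choose g hg using hmem
  have hgF : ∀ n, Face (g n) := fun n => (hg n).1
  have hgu : ∀ n, (yc (g n)).re = u n := fun n => (hg n).2
  obtain ⟨φ, hφ, G, hG⟩ := montel (fun n => (hgF n).cara)
  have hGC : Cara G := Cara.of_tendsto (fun n => (hgF (φ n)).cara) hG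
  have hcl : closedBall (0 : E2) (1 / 2) ⊆ ball 0 1 := closedBall_subset_ball (by norm_num)
  have hun : TendstoUniformlyOn (fun n => g (φ n)) G atTop (closedBall (0 : E2) (1 / 2)) :=
    (tendstoLocallyUniformlyOn_iff_forall_isCompact isOpen_ball).1 hG _ hcl
      (isCompact_closedBall _ _)
  rw [Metric.tendstoUniformlyOn_iff] at hun
  have hconv1 : Tendsto (fun n => aco (cmp (g (φ n)) 0) 2) atTop (𝓝 (aco (cmp G 0) 2)) := by
    rw [Metric.tendsto_nhds]
    intro ε hε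
    filter_upwards [hun (ε / 8) (by positivity)] with n hn
    rw [dist_eq_norm, aco_two_eq (hgF (φ n)).cara.diff, aco_two_eq hGC.diff]
    have h1 := qf_close (hgF (φ n)).cara.diff hGC.diff (C := ε / 8) (fun z hz => by
      have := hn z (by simpa using hz)
      rw [dist_comm, dist_eq_norm] at this
      exact this.le) norm_pt_zero_one.le
    have h2 := norm_apply_le_two (qf (g (φ n)) (pt 0 1) - qf G (pt 0 1)) 0
    calc _ ≤ _ := h2
      _ ≤ _ := h1
      _ < ε := by linarith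
  have hconv2 : Tendsto (fun n => yc (g (φ n))) atTop (𝓝 (yc G)) := by
    rw [Metric.tendsto_nhds]
    intro ε hε
    filter_upwards [hun (ε / 48) (by positivity)] with n hn
    rw [dist_eq_norm, yc, yc, bco_one_eq (hgF (φ n)).cara.diff, bco_one_eq hGC.diff]
    have h1 := mf_close (hgF (φ n)).cara.diff hGC.diff (C := ε / 48) (fun z hz => by
      have := hn z (by simpa using hz)
      rw [dist_comm, dist_eq_norm] at this
      exact this.le)
    have h2 := norm_apply_le_two (mf (g (φ n)) - mf G) 1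
    calc _ ≤ _ := h2
      _ ≤ _ := h1
      _ < ε := by linarith
  have hGF : Face G := by
    refine ⟨hGC, ?_⟩
    have h1 : (fun n => aco (cmp (g (φ n)) 0) 2) = fun _ =>
        ((-(3 * Real.sqrt 3 / 2) : ℝ) : ℂ) := by
      ext1 n
      exact (hgF (φ n)).q
    rw [h1] at hconv1
    exact tendsto_nhds_unique hconv1 tendsto_const_nhds
  refine ⟨G, hGF, fun f hf => ?_⟩
  have h1 : Tendsto (fun n => u (φ n)) atTop (𝓝 (yc G).re) := by
    have := (Complex.continuous_re.tendsto _).comp hconv2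
    refine this.congr fun n => ?_
    exact hgu (φ n)
  have h2 : Tendsto (fun n => u (φ n)) atTop (𝓝 (sSup S)) := hu.comp hφ.tendsto_atTop
  rw [tendsto_nhds_unique h1 h2]
  exact le_csSup hSb ⟨f, hf, rfl⟩

end Pool.Agent.KS7_39.LJ
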