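import Mathlib
import Pool.Agent.KS7_39.H840R2.LJH

set_option autoImplicit false

namespace Pool.Agent.KS7_39.LJ

open Metric Set Filter Topology Pool.Agent.KS7_39.H540

/-- One Euler step. -/
noncomputable def eu (h : E2 → E2) (ρ : ℝ) (z : E2) : E2 := z - ρ • h z

theorem eu_norm {h : E2 → E2} (hh : Cara h) {r L : ℝ} (hr : r < 1)
    (hL : ∀ z w : E2, ‖z‖ ≤ r → ‖w‖ ≤ r → ‖h z - h w‖ ≤ L * ‖z - w‖) {ρ : ℝ} (hρ : 0 ≤ ρ)
    (hρL : ρ * L ^ 2 ≤ 2 * ((1 - r) / (1 + r))) (hr0 : 0 ≤ r) {z : E2} (hz : ‖z‖ ≤ r) :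
    ‖eu h ρ z‖ ≤ ‖z‖ := by
  have hz1 : ‖z‖ < 1 := hz.trans_lt hr
  have h1 := (hh.re_inner_ge hz1).1
  have h2 : ‖h z‖ ≤ L * ‖z‖ := by
    have := hL z 0 hz (by rw [norm_zero]; exact hr0)
    rwa [hh.zero, sub_zero, sub_zero] at this
  have h3 : ‖eu h ρ z‖ ^ 2 = ‖z‖ ^ 2 - 2 * ρ * (inner ℂ z (h z)).re + ρ ^ 2 * ‖h z‖ ^ 2 := by
    rw [eu, @norm_sub_sq ℂ, norm_smul, Real.norm_of_nonneg hρ, ← Complex.coe_smul, inner_smul_right]
    have : RCLike.re ((ρ : ℂ) * inner ℂ z (h z)) = ρ * (inner ℂ z (h z)).re :=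
      Complex.re_ofReal_mul _ _
    rw [this]
    ring
  have h4 : (1 - r) / (1 + r) ≤ (1 - ‖z‖) / (1 + ‖z‖) := by
    rw [div_le_div_iff₀ (by linarith) (by have := norm_nonneg z; linarith)]
    nlinarith
  have h5 : ‖h z‖ ^ 2 ≤ L ^ 2 * ‖z‖ ^ 2 := by
    rw [← mul_pow]; gcongr
  have h6 : ‖z‖ ^ 2 * ((1 - r) / (1 + r)) ≤ (inner ℂ z (h z)).re :=
    (mul_le_mul_of_nonneg_left h4 (sq_nonneg _)).trans h1
  have h7 : ‖eu h ρ z‖ ^ 2 ≤ ‖z‖ ^ 2 := by
    rw [h3]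
    have a1 : ρ * (‖z‖ ^ 2 * ((1 - r) / (1 + r))) ≤ ρ * (inner ℂ z (h z)).re :=
      mul_le_mul_of_nonneg_left h6 hρ
    have a2 : ρ ^ 2 * ‖h z‖ ^ 2 ≤ ρ ^ 2 * (L ^ 2 * ‖z‖ ^ 2) :=
      mul_le_mul_of_nonneg_left h5 (sq_nonneg _)
    have a3 : ρ * ‖z‖ ^ 2 * (ρ * L ^ 2) ≤ ρ * ‖z‖ ^ 2 * (2 * ((1 - r) / (1 + r))) :=
      mul_le_mul_of_nonneg_left hρL (by positivity)
    nlinarith
  exact (pow_le_pow_iff_left₀ (norm_nonneg _) (norm_nonneg _) two_ne_zero).1 h7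

theorem iter_norm {h : E2 → E2} {r : ℝ} {ρ : ℝ}
    (hE : ∀ z : E2, ‖z‖ ≤ r → ‖eu h ρ z‖ ≤ ‖z‖) (n : ℕ) {z : E2} (hz : ‖z‖ ≤ r) :
    ‖(eu h ρ)^[n] z‖ ≤ ‖z‖ := by
  induction n with
  | zero => simp
  | succ n ih =>
    rw [Function.iterate_succ_apply']
    exact (hE _ (ih.trans hz)).trans ih

/-- Local error of the Euler scheme. -/
theorem eu_local {h : E2 → E2} {v : ℝ → E2 → E2} (hv : Semi h v) {r L C : ℝ}
    (hr : r < 1) (hL0 : 0 ≤ L)
    (hL : ∀ z w : E2, ‖z‖ ≤ r → ‖w‖ ≤ r → ‖h z - h w‖ ≤ L * ‖z - w‖)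
    (hC0 : 0 ≤ C) (hC : ∀ z : E2, ‖z‖ ≤ r → ‖h z‖ ≤ C) {ρ : ℝ} (hρ : 0 ≤ ρ) {z : E2}
    (hz : ‖z‖ ≤ r) : ‖v ρ z - eu h ρ z‖ ≤ L * C * ρ ^ 2 := by
  have hzb : z ∈ ball (0 : E2) 1 := by rw [mem_ball_zero_iff]; exact hz.trans_lt hr
  have hvr : ∀ s, 0 ≤ s → ‖v s z‖ ≤ r := fun s hs => (hv.norm_le s hs z hzb).trans hz
  have h1 : ∀ s ∈ Icc (0 : ℝ) ρ, ‖v s z - z‖ ≤ C * s := by
    intro s hs
    have key := (convex_Icc (0 : ℝ) s).norm_image_sub_le_of_norm_hasDerivWithin_le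
      (f := fun s => v s z) (f' := fun s => -(h (v s z))) (C := C)
      (fun x hx => (hv.deriv x hx.1 z hzb).hasDerivWithinAt)
      (fun x hx => by rw [norm_neg]; exact hC _ (hvr x hx.1))
      (left_mem_Icc.2 hs.1) (right_mem_Icc.2 hs.1)
    rw [hv.start z hzb, sub_zero, Real.norm_of_nonneg hs.1] at key
    exact key
  have h2 := (convex_Icc (0 : ℝ) ρ).norm_image_sub_le_of_norm_hasDerivWithin_le
    (f := fun s => v s z + s • h z) (f' := fun s => -(h (v s z)) + (1 : ℝ) • h z)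
    (C := L * (C * ρ))
    (fun x hx => ((hv.deriv x hx.1 z hzb).add
      ((hasDerivAt_id x).smul_const (h z))).hasDerivWithinAt)
    (fun x hx => by
      have e : -(h (v x z)) + (1 : ℝ) • h z = -(h (v x z) - h z) := by rw [one_smul]; abel
      rw [e, norm_neg]
      have b1 := hL (v x z) z (hvr x hx.1) hz
      have b2 := h1 x hx
      calc ‖h (v x z) - h z‖ ≤ L * ‖v x z - z‖ := b1
        _ ≤ L * (C * x) := by gcongr
        _ ≤ L * (C * ρ) := by
            have := hx.2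
            gcongr)
    (left_mem_Icc.2 hρ) (right_mem_Icc.2 hρ)
  rw [hv.start z hzb, sub_zero, Real.norm_of_nonneg hρ, zero_smul, add_zero] at h2
  have e : v ρ z + ρ • h z - z = v ρ z - eu h ρ z := by rw [eu]; abel
  rw [e] at h2
  calc _ ≤ _ := h2
    _ = _ := by ring

/-- Global error of the Euler scheme. -/
theorem eu_global {h : E2 → E2} (hh : Cara h) {v : ℝ → E2 → E2} (hv : Semi h v) {r L C : ℝ}
    (hr0 : 0 ≤ r) (hr : r < 1) (hL0 : 0 ≤ L)
    (hL : ∀ z w : E2, ‖z‖ ≤ r → ‖w‖ ≤ r → ‖h z - h w‖ ≤ L * ‖z - w‖)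
    (hC0 : 0 ≤ C) (hC : ∀ z : E2, ‖z‖ ≤ r → ‖h z‖ ≤ C) {ρ : ℝ} (hρ : 0 ≤ ρ)
    (hρL : ρ * L ^ 2 ≤ 2 * ((1 - r) / (1 + r))) (n : ℕ) {z : E2}
    (hz : ‖z‖ ≤ r) : ‖v (n * ρ) z - (eu h ρ)^[n] z‖ ≤ n * (L * C * ρ ^ 2) * (1 + L * ρ) ^ n := by
  have hzb : z ∈ ball (0 : E2) 1 := by rw [mem_ball_zero_iff]; exact hz.trans_lt hr
  have hE : ∀ z : E2, ‖z‖ ≤ r → ‖eu h ρ z‖ ≤ ‖z‖ := fun z hz =>
    eu_norm hh hr hL hρ hρL hr0 hz
  induction n with
  | zero => simp [hv.start z hzb]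
  | succ n ih =>
    have hnρ : 0 ≤ (n : ℝ) * ρ := by positivity
    set a := v (n * ρ) z with ha
    set b := (eu h ρ)^[n] z with hb
    have har : ‖a‖ ≤ r := (hv.norm_le _ hnρ z hzb).trans hz
    have hbr : ‖b‖ ≤ r := (iter_norm hE n hz).trans hz
    have e1 : v (((n + 1 : ℕ) : ℝ) * ρ) z = v ρ a := by
      rw [ha, ← hv.add ρ (n * ρ) hρ hnρ z hzb]
      congr 1
      push_cast
      ring
    rw [Function.iterate_succ_apply', e1]
    have h1 := eu_local hv hr hL0 hL hC0 hC hρ har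
    have h2 : ‖eu h ρ a - eu h ρ b‖ ≤ (1 + L * ρ) * ‖a - b‖ := by
      have e : eu h ρ a - eu h ρ b = (a - b) - ρ • (h a - h b) := by
        rw [eu, eu, smul_sub]; abel
      rw [e]
      calc ‖(a - b) - ρ • (h a - h b)‖ ≤ ‖a - b‖ + ‖ρ • (h a - h b)‖ := norm_sub_le _ _
        _ = ‖a - b‖ + ρ * ‖h a - h b‖ := by rw [norm_smul, Real.norm_of_nonneg hρ]
        _ ≤ ‖a - b‖ + ρ * (L * ‖a - b‖) := by
            have := hL a b har hbr
            gcongr
        _ = _ := by ring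
    have hLρ : 0 ≤ L * ρ := by positivity
    set D := L * C * ρ ^ 2 with hD
    have hD0 : 0 ≤ D := by positivity
    have h3 : (1 : ℝ) ≤ (1 + L * ρ) ^ (n + 1) := one_le_pow₀ (by linarith)
    calc ‖v ρ a - eu h ρ b‖ = ‖(v ρ a - eu h ρ a) + (eu h ρ a - eu h ρ b)‖ := by congr 1; abel
      _ ≤ ‖v ρ a - eu h ρ a‖ + ‖eu h ρ a - eu h ρ b‖ := norm_add_le _ _
      _ ≤ D + (1 + L * ρ) * ‖a - b‖ := add_le_add h1 h2
      _ ≤ D * 1 + (1 + L * ρ) * (n * D * (1 + L * ρ) ^ n) := by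
          rw [mul_one]
          gcongr
      _ ≤ D * (1 + L * ρ) ^ (n + 1) + (1 + L * ρ) * (n * D * (1 + L * ρ) ^ n) := by gcongr
      _ = _ := by push_cast; ring

theorem eu_diff {h : E2 → E2} (hh : Cara h) {r ρ : ℝ} (hr : r < 1)
    (hE : ∀ z : E2, ‖z‖ ≤ r → ‖eu h ρ z‖ ≤ ‖z‖) (n : ℕ) :
    DifferentiableOn ℂ ((eu h ρ)^[n]) (ball 0 r) := by
  have hsub : ball (0 : E2) r ⊆ ball 0 1 := ball_subset_ball hr.le
  have h1 : DifferentiableOn ℂ (eu h ρ) (ball 0 r) := by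
    have e : eu h ρ = fun z => z - (ρ : ℂ) • h z := by
      ext1 z
      rw [eu, Complex.coe_smul]
    rw [e]
    have e2 : DifferentiableOn ℂ (fun z => (ρ : ℂ) • h z) (ball 0 r) :=
      (hh.diff.mono hsub).const_smul (ρ : ℂ)
    exact differentiableOn_id.sub e2
  induction n with
  | zero => exact differentiableOn_id
  | succ n ih =>
    have e : (eu h ρ)^[n + 1] = fun z => eu h ρ ((eu h ρ)^[n] z) := by
      ext1 z
      rw [Function.iterate_succ_apply']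
    rw [e]
    apply h1.comp ih
    intro z hz
    rw [mem_ball_zero_iff] at *
    exact (iter_norm hE n hz.le).trans_lt hz

/-- The maps of the semigroup are holomorphic. -/
theorem Semi.holo {h : E2 → E2} (hh : Cara h) {v : ℝ → E2 → E2} (hv : Semi h v) {t : ℝ}
    (ht : 0 ≤ t) : DifferentiableOn ℂ (v t) (ball 0 1) := by
  have key : ∀ r : ℝ, 0 < r → r < 1 → DifferentiableOn ℂ (v t) (ball 0 (r / 2)) ∧
      ∀ c : E2, ∀ R : ℝ, 0 < R → ball c R ⊆ ball 0 r → DifferentiableOn ℂ (v t) (ball c (R / 2)) := by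
    intro r hr0 hr
    obtain ⟨L, hL0, hL⟩ := cara_lip hh hr
    obtain ⟨C, hC0, hC⟩ := exists_cara_bound (E := E2) hr
    have hc : 0 < 2 * ((1 - r) / (1 + r)) := by
      have : 0 < 1 - r := by linarith
      positivity
    obtain ⟨N, hN⟩ := exists_nat_gt (t * L ^ 2 / (2 * ((1 - r) / (1 + r))))
    have hstep : ∀ n : ℕ, t / ((n + N + 1 : ℕ) : ℝ) * L ^ 2 ≤ 2 * ((1 - r) / (1 + r)) := by
      intro n
      rw [div_lt_iff₀ hc] at hN
      have hpos : (0 : ℝ) < ((n + N + 1 : ℕ) : ℝ) := by positivity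
      rw [div_mul_eq_mul_div, div_le_iff₀ hpos]
      have h1 : (N : ℝ) ≤ ((n + N + 1 : ℕ) : ℝ) := by push_cast; linarith [Nat.cast_nonneg (α := ℝ) n]
      nlinarith
    set f : ℕ → E2 → E2 := fun n => (eu h (t / ((n + N + 1 : ℕ) : ℝ)))^[n + N + 1] with hf
    have hfd : ∀ n, DifferentiableOn ℂ (f n) (ball 0 r) := by
      intro n
      exact eu_diff hh hr (fun z hz => eu_norm hh hr hL (by positivity) (hstep n) hr0.le hz) _
    have hlim : TendstoUniformlyOn f (v t) atTop (ball 0 r) := by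
      rw [Metric.tendstoUniformlyOn_iff]
      intro ε hε
      have hbound : ∀ n : ℕ, ∀ z ∈ ball (0 : E2) r, dist (v t z) (f n z) ≤
          (L * C * t ^ 2 * Real.exp (L * t)) / ((n + N + 1 : ℕ) : ℝ) := by
        intro n z hz
        rw [mem_ball_zero_iff] at hz
        set m : ℕ := n + N + 1 with hm
        have hm0 : (0 : ℝ) < (m : ℝ) := by rw [hm]; positivity
        have h1 := eu_global hh hv hr0.le hr hL0 hL hC0 (hC h hh) (ρ := t / (m : ℝ)) (by positivity)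
          (hstep n) m hz.le
        have e1 : (m : ℝ) * (t / (m : ℝ)) = t := by field_simp
        rw [e1] at h1
        rw [dist_eq_norm]
        refine h1.trans ?_
        have h2 : (1 + L * (t / (m : ℝ))) ^ m ≤ Real.exp (L * t) := by
          have h3 : 1 + L * (t / (m : ℝ)) ≤ Real.exp (L * (t / (m : ℝ))) := by
            have := Real.add_one_le_exp (L * (t / (m : ℝ)))
            linarith
          calc (1 + L * (t / (m : ℝ))) ^ m ≤ (Real.exp (L * (t / (m : ℝ)))) ^ m := by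
                apply pow_le_pow_left₀ _ h3
                positivity
            _ = Real.exp (L * t) := by
                rw [← Real.exp_nat_mul]
                congr 1
                field_simp
        calc (m : ℝ) * (L * C * (t / (m : ℝ)) ^ 2) * (1 + L * (t / (m : ℝ))) ^ m ≤
            (m : ℝ) * (L * C * (t / (m : ℝ)) ^ 2) * Real.exp (L * t) := by gcongr
          _ = _ := by field_simp
      have hz : Tendsto (fun n : ℕ => (L * C * t ^ 2 * Real.exp (L * t)) / ((n + N + 1 : ℕ) : ℝ))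
          atTop (𝓝 0) := by
        apply Tendsto.const_div_atTop
        have : Tendsto (fun n : ℕ => n + N + 1) atTop atTop :=
          tendsto_atTop_mono (fun n => by show n ≤ n + N + 1; omega) tendsto_id
        exact tendsto_natCast_atTop_atTop.comp this
      filter_upwards [hz.eventually (gt_mem_nhds hε)] with n hn z hz
      exact (hbound n z hz).trans_lt hn
    refine ⟨differentiableOn_of_uniform_limit hfd hlim, fun c R hR hsub => ?_⟩
    exact differentiableOn_of_uniform_limit (fun n => (hfd n).mono hsub) (hlim.mono hsub)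
  intro z hz
  rw [mem_ball_zero_iff] at hz
  have hR : 0 < (1 - ‖z‖) / 4 := by linarith
  obtain ⟨-, h2⟩ := key ((1 + ‖z‖) / 2) (by have := norm_nonneg z; linarith) (by linarith)
  have h3 := h2 z ((1 - ‖z‖) / 4) hR (by
    intro w hw
    rw [mem_ball, dist_eq_norm] at hw
    rw [mem_ball_zero_iff]
    calc ‖w‖ = ‖z + (w - z)‖ := by simp
      _ ≤ ‖z‖ + ‖w - z‖ := norm_add_le _ _
      _ < _ := by linarith)
  exact ((h3 z (mem_ball_self (by positivity))).differentiableAt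
    (ball_mem_nhds _ (by positivity))).differentiableWithinAt

theorem Semi.mapsTo {h : E2 → E2} {v : ℝ → E2 → E2} (hv : Semi h v) {t : ℝ}
    (ht : 0 ≤ t) {z : E2} (hz : z ∈ ball (0 : E2) 1) : v t z ∈ ball (0 : E2) 1 := by
  rw [mem_ball_zero_iff] at *
  exact (hv.norm_le t ht z (by simpa using hz)).trans_lt hz

/-- Injectivity. -/
theorem Semi.inj {h : E2 → E2} (hh : Cara h) {v : ℝ → E2 → E2} (hv : Semi h v) {t : ℝ}
    (ht : 0 ≤ t) : InjOn (v t) (ball 0 1) := by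
  intro z hz w hw hzw
  set r := max ‖z‖ ‖w‖ with hr
  have hr1 : r < 1 := max_lt (by simpa using hz) (by simpa using hw)
  obtain ⟨L, hL0, hL⟩ := cara_lip hh hr1
  have hzr : ∀ s, 0 ≤ s → ‖v s z‖ ≤ r := fun s hs => (hv.norm_le s hs z hz).trans (le_max_left _ _)
  have hwr : ∀ s, 0 ≤ s → ‖v s w‖ ≤ r := fun s hs => (hv.norm_le s hs w hw).trans (le_max_right _ _)
  -- backward uniqueness
  have key := ODE_solution_unique_of_mem_Icc_left (v := fun _ z => -(h z))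
    (s := fun _ => closedBall (0 : E2) r) (K := L.toNNReal) (f := fun s => v s z)
    (g := fun s => v s w) (a := 0) (b := t)
    (fun s _ => by
      rw [lipschitzOnWith_iff_norm_sub_le]
      intro x hx y hy
      rw [Real.coe_toNNReal _ hL0]
      have := hL x y (by simpa using hx) (by simpa using hy)
      calc ‖-h x - -h y‖ = ‖h x - h y‖ := by rw [← norm_neg]; congr 1; abel
        _ ≤ _ := this)
    (fun s hs => (hv.deriv s hs.1 z hz).continuousAt.continuousWithinAt)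
    (fun s hs => (hv.deriv s hs.1.le z hz).hasDerivWithinAt)
    (fun s hs => by simpa using hzr s hs.1.le)
    (fun s hs => (hv.deriv s hs.1 w hw).continuousAt.continuousWithinAt)
    (fun s hs => (hv.deriv s hs.1.le w hw).hasDerivWithinAt)
    (fun s hs => by simpa using hwr s hs.1.le) hzw
  have h1 := key (left_mem_Icc.2 ht)
  simp only at h1
  rwa [hv.start z hz, hv.start w hw] at h1

end Pool.Agent.KS7_39.LJ
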