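import Mathlib
import Pool.Agent.KS7_39.H840R2.LJK
import Pool.Agent.KS7_39.Helper540.Trans

set_option autoImplicit false

namespace Pool.Agent.KS7_39.LJ

open Metric Set Filter Topology Pool.Agent.KS7_39.H540

/-- A normal Loewner chain generated by `h1` before time `T` and by `h2` after time `T`. -/
theorem exists_chain {h1 h2 : E2 → E2} (c1 : Cara h1) (c2 : Cara h2) {T : ℝ} (hT : 0 ≤ T) :
    ∃ F : ℝ → E2 → E2, LC F ∧
      (∀ t, 0 < t → t < T → ∀ z ∈ ball (0 : E2) 1,
        HasDerivAt (fun s => F s z) (fderiv ℂ (F t) z (h1 z)) t) ∧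
      (∀ t, T < t → ∀ z ∈ ball (0 : E2) 1,
        HasDerivAt (fun s => F s z) (fderiv ℂ (F t) z (h2 z)) t) := by
  obtain ⟨v, hv⟩ := exists_semi c1
  obtain ⟨w, hw⟩ := exists_semi c2
  obtain ⟨F1, hF1⟩ := exists_lin c1 hv
  obtain ⟨G, hG⟩ := exists_lin c2 hw
  have h0b : (0 : E2) ∈ ball (0 : E2) 1 := mem_ball_self one_pos
  have hexp : ∀ t : ℝ, ((Real.exp t : ℝ) : ℂ) ≠ 0 := fun t => by
    exact_mod_cast (Real.exp_pos t).ne'
  have hv0 : ∀ t, 0 ≤ t → v t 0 = 0 := by
    intro t ht
    have := hv.norm_le t ht 0 h0b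
    rw [norm_zero] at this
    exact norm_le_zero_iff.1 this
  set F : ℝ → E2 → E2 := fun t z => if T ≤ t then ((Real.exp t : ℝ) : ℂ) • G z else
    ((Real.exp T : ℝ) : ℂ) • G (v (T - t) z) with hF
  have hFge : ∀ t, T ≤ t → F t = fun z => ((Real.exp t : ℝ) : ℂ) • G z := by
    intro t ht
    ext1 z
    simp only [hF, if_pos ht]
  have hFlt : ∀ t, t < T → F t = fun z => ((Real.exp T : ℝ) : ℂ) • G (v (T - t) z) := by
    intro t ht
    ext1 z
    simp only [hF, if_neg (not_le.2 ht)]
  have hvd : ∀ t, t < T → DifferentiableOn ℂ (fun z => G (v (T - t) z)) (ball 0 1) := by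
    intro t ht
    exact hG.holo.comp (hv.holo c1 (by linarith)) (fun z hz => hv.mapsTo (by linarith) hz)
  refine ⟨F, ⟨?_, ?_, ?_, ?_, ?_, ?_⟩, ?_, ?_⟩
  · -- holomorphic
    intro t ht
    rcases le_or_gt T t with h | h
    · rw [hFge t h]; exact hG.holo.const_smul ((Real.exp t : ℝ) : ℂ)
    · rw [hFlt t h]; exact (hvd t h).const_smul ((Real.exp T : ℝ) : ℂ)
  · -- injective
    intro t ht z hz z' hz' hzz
    rcases le_or_gt T t with h | h
    · rw [hFge t h] at hzz
      exact hG.inj hz hz' (smul_right_injective _ (hexp t) hzz)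
    · rw [hFlt t h] at hzz
      have e1 := smul_right_injective _ (hexp T) hzz
      have ht' : 0 ≤ T - t := by linarith
      have e2 := hG.inj (hv.mapsTo ht' hz) (hv.mapsTo ht' hz') e1
      exact hv.inj c1 ht' hz hz' e2
  · -- zero
    intro t ht
    rcases le_or_gt T t with h | h
    · rw [hFge t h]; simp only [hG.zero, smul_zero]
    · rw [hFlt t h]; simp only [hv0 (T - t) (by linarith), hG.zero, smul_zero]
  · -- derivative at zero
    intro t ht
    have g1 : HasFDerivAt G (ContinuousLinearMap.id ℂ E2) 0 := by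
      rw [← hG.fder]
      exact (hG.holo.differentiableAt (isOpen_ball.mem_nhds h0b)).hasFDerivAt
    rcases le_or_gt T t with h | h
    · rw [hFge t h]
      exact (g1.const_smul ((Real.exp t : ℝ) : ℂ)).fderiv
    · rw [hFlt t h]
      have ht' : 0 ≤ T - t := by linarith
      have g2 : HasFDerivAt (v (T - t))
          (((Real.exp (-(T - t)) : ℝ) : ℂ) • ContinuousLinearMap.id ℂ E2) 0 := by
        rw [← hv.fderiv_zero c1 hF1 ht']
        exact ((hv.holo c1 ht').differentiableAt (isOpen_ball.mem_nhds h0b)).hasFDerivAt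
      have g3 : HasFDerivAt G (ContinuousLinearMap.id ℂ E2) (v (T - t) 0) := by
        rw [hv0 _ ht']; exact g1
      have g4 : HasFDerivAt (fun z => G (v (T - t) z)) ((ContinuousLinearMap.id ℂ E2).comp
          (((Real.exp (-(T - t)) : ℝ) : ℂ) • ContinuousLinearMap.id ℂ E2)) 0 :=
        g3.comp (0 : E2) g2
      have g5 := g4.const_smul ((Real.exp T : ℝ) : ℂ)
      have g6 : fderiv ℂ (fun z => ((Real.exp T : ℝ) : ℂ) • G (v (T - t) z)) 0 = _ := g5.fderiv
      rw [g6, ContinuousLinearMap.id_comp, smul_smul, ← Complex.ofReal_mul, ← Real.exp_add]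
      congr 3
      ring
  · -- inclusion
    intro s t hs hst
    rintro _ ⟨z, hz, rfl⟩
    rcases le_or_gt T s with h | h
    · have ht : T ≤ t := h.trans hst
      refine ⟨w (t - s) z, hw.mapsTo (by linarith) hz, ?_⟩
      rw [hFge t ht, hFge s h]
      simp only
      rw [hG.conj (t - s) (by linarith) z hz, ← Complex.coe_smul, smul_smul,
        ← Complex.ofReal_mul, ← Real.exp_add]
      congr 3
      ring
    · have hs' : 0 ≤ T - s := by linarith
      rcases le_or_gt T t with h' | h'
      · refine ⟨w (t - T) (v (T - s) z), hw.mapsTo (by linarith) (hv.mapsTo hs' hz), ?_⟩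
        rw [hFge t h', hFlt s h]
        simp only
        rw [hG.conj (t - T) (by linarith) _ (hv.mapsTo hs' hz), ← Complex.coe_smul, smul_smul,
          ← Complex.ofReal_mul, ← Real.exp_add]
        congr 3
        ring
      · refine ⟨v (t - s) z, hv.mapsTo (by linarith) hz, ?_⟩
        rw [hFlt t h', hFlt s h]
        simp only
        rw [← hv.add (T - t) (t - s) (by linarith) (by linarith) z hz]
        congr 3
        ring
  · -- bound
    intro r hr
    refine ⟨Real.exp T * (r / (1 - r) ^ 2), fun t ht z hz => ?_⟩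
    have hzb : z ∈ ball (0 : E2) 1 := by rw [mem_ball_zero_iff]; exact hz.trans_lt hr
    have hK0 : 0 ≤ r / (1 - r) ^ 2 := (Kf_nonneg z).trans (Kf_le hr hz)
    have hT1 : 1 ≤ Real.exp T := Real.one_le_exp hT
    have ht1 : 1 ≤ Real.exp t := Real.one_le_exp ht
    rcases le_or_gt T t with h | h
    · rw [hFge t h]
      simp only
      rw [norm_smul, Complex.norm_real, Real.norm_of_nonneg (Real.exp_pos t).le]
      have b1 := (hG.bound z hzb).trans (Kf_le hr hz)
      calc Real.exp t * ‖G z‖ ≤ Real.exp t * (r / (1 - r) ^ 2) := by gcongr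
        _ = 1 * (r / (1 - r) ^ 2) * Real.exp t := by ring
        _ ≤ _ := by gcongr
    · rw [hFlt t h]
      simp only
      rw [norm_smul, Complex.norm_real, Real.norm_of_nonneg (Real.exp_pos T).le]
      have ht' : 0 ≤ T - t := by linarith
      have b1 := (hG.bound _ (hv.mapsTo ht' hzb)).trans
        (Kf_le hr ((hv.norm_le _ ht' z hzb).trans hz))
      calc Real.exp T * ‖G (v (T - t) z)‖ ≤ Real.exp T * (r / (1 - r) ^ 2) := by gcongr
        _ = Real.exp T * (r / (1 - r) ^ 2) * 1 := by ring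
        _ ≤ _ := by gcongr
  · -- generation before `T`
    intro t ht0 ht z hz
    have ht' : 0 ≤ T - t := by linarith
    have hvz := hv.mapsTo ht' hz
    have k1 : HasDerivAt (fun s => v (T - s) z) (h1 (v (T - t) z)) t := by
      have a1 := hv.deriv (T - t) ht' z hz
      have a2 := a1.comp_const_sub T t
      rw [neg_neg] at a2
      exact a2
    have k2 : HasFDerivAt G (fderiv ℂ G (v (T - t) z)) (v (T - t) z) :=
      (hG.holo.differentiableAt (isOpen_ball.mem_nhds hvz)).hasFDerivAt
    have k3 : HasDerivAt (fun s => G (v (T - s) z)) (fderiv ℂ G (v (T - t) z) (h1 (v (T - t) z))) t :=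
      HasFDerivAt.comp_hasDerivAt (f := fun s => v (T - s) z) t (k2.restrictScalars ℝ) k1
    have k4 : HasDerivAt (fun s => ((Real.exp T : ℝ) : ℂ) • G (v (T - s) z))
        (((Real.exp T : ℝ) : ℂ) • fderiv ℂ G (v (T - t) z) (h1 (v (T - t) z))) t :=
      k3.const_smul ((Real.exp T : ℝ) : ℂ)
    have k5 : HasDerivAt (fun s => F s z)
        (((Real.exp T : ℝ) : ℂ) • fderiv ℂ G (v (T - t) z) (h1 (v (T - t) z))) t := by
      apply k4.congr_of_eventuallyEq
      filter_upwards [gt_mem_nhds ht] with s hs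
      rw [hFlt s hs]
    refine k5.congr_deriv ?_
    rw [hFlt t ht]
    have k6 : HasFDerivAt (v (T - t)) (fderiv ℂ (v (T - t)) z) z :=
      ((hv.holo c1 ht').differentiableAt (isOpen_ball.mem_nhds hz)).hasFDerivAt
    have k7 : HasFDerivAt (fun z => G (v (T - t) z))
        ((fderiv ℂ G (v (T - t) z)).comp (fderiv ℂ (v (T - t)) z)) z := k2.comp z k6
    have k8 : fderiv ℂ (fun z => ((Real.exp T : ℝ) : ℂ) • G (v (T - t) z)) z = _ :=
      (k7.const_smul ((Real.exp T : ℝ) : ℂ)).fderiv
    rw [k8, smul_apply, ContinuousLinearMap.comp_apply, hv.fderiv_gen c1 ht' hz]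
  · -- generation after `T`
    intro t ht z hz
    have k4 : HasDerivAt (fun s : ℝ => ((Real.exp s : ℝ) : ℂ) • G z)
        (((Real.exp t : ℝ) : ℂ) • G z) t :=
      ((Real.hasDerivAt_exp t).ofReal_comp).smul_const (G z)
    have k5 : HasDerivAt (fun s => F s z) (((Real.exp t : ℝ) : ℂ) • G z) t := by
      apply k4.congr_of_eventuallyEq
      filter_upwards [lt_mem_nhds ht] with s hs
      rw [hFge s hs.le]
    refine k5.congr_deriv ?_
    rw [hFge t ht.le]
    have k2 : HasFDerivAt G (fderiv ℂ G z) z :=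
      (hG.holo.differentiableAt (isOpen_ball.mem_nhds hz)).hasFDerivAt
    have k8 : fderiv ℂ (fun z => ((Real.exp t : ℝ) : ℂ) • G z) z = _ :=
      (k2.const_smul ((Real.exp t : ℝ) : ℂ)).fderiv
    rw [k8, smul_apply, hG.gen z hz]

end Pool.Agent.KS7_39.LJ
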