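import Mathlib
import Pool.Agent.KS7_39.H840R2.LJE
import Pool.Agent.KS7_39.Helper540.Lip

set_option autoImplicit false

namespace Pool.Agent.KS7_39.LJ

open Metric Set Filter Topology MeasureTheory Pool.Agent.KS7_39.H540

section Vec

variable {E : Type*} [NormedAddCommGroup E] [NormedSpace ℂ E] [CompleteSpace E]

theorem tcv_succ {f : ℂ → E} {R : ℝ} (hR : 0 < R) (hf : DifferentiableOn ℂ f (ball 0 R)) (n : ℕ) :
    tc (n + 1) (fun z => z • f z) = tc n f := by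
  have hs : closedBall (0 : ℂ) (R / 2) ⊆ ball 0 R := closedBall_subset_ball (by linarith)
  have hr : 0 < R / 2 := by linarith
  have h1 : DiffContOnCl ℂ f (ball 0 (R / 2)) := DifferentiableOn.diffContOnCl_ball hf hs
  have h2 : DiffContOnCl ℂ (fun z => z • f z) (ball 0 (R / 2)) :=
    DifferentiableOn.diffContOnCl_ball (differentiableOn_id.smul hf) hs
  rw [← tc_circleAverage hr (n + 1) h2, ← tc_circleAverage hr n h1]
  apply Real.circleAverage_congr_sphere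
  intro z hz
  rw [abs_of_pos hr] at hz
  have hz0 := ne_zero_of_sphere hr hz
  simp only [smul_smul, pow_succ]
  congr 1
  field_simp

theorem exists_divv {H : ℂ → E} {R : ℝ} (hR : 0 < R) (hH : DifferentiableOn ℂ H (ball 0 R))
    (h0 : H 0 = 0) : ∃ K : ℂ → E, DifferentiableOn ℂ K (ball 0 R) ∧ (∀ z, H z = z • K z) ∧
      ∀ n, tc (n + 1) H = tc n K := by
  have hb : ball (0 : ℂ) R ∈ 𝓝 (0 : ℂ) := ball_mem_nhds _ hR
  have hd : DifferentiableOn ℂ (dslope H 0) (ball 0 R) := (Complex.differentiableOn_dslope hb).2 hH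
  have he : ∀ z, H z = z • dslope H 0 z := by
    intro z
    have := sub_smul_dslope H 0 z
    rw [h0, sub_zero, sub_zero] at this
    exact this.symm
  refine ⟨dslope H 0, hd, he, fun n => ?_⟩
  rw [← tcv_succ hR hd n]
  congr 1
  ext z
  exact he z

omit [CompleteSpace E] in
theorem tc_deriv (f : ℂ → E) (n : ℕ) : tc n (deriv f) = ((n : ℂ) + 1) • tc (n + 1) f := by
  rw [tc, tc, smul_smul, iteratedDeriv_succ']
  congr 1
  rw [Nat.factorial_succ]
  have h1 : ((n : ℂ) + 1) ≠ 0 := by exact_mod_cast Nat.succ_ne_zero n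
  have h2 : ((n.factorial : ℕ) : ℂ) ≠ 0 := by exact_mod_cast Nat.factorial_ne_zero n
  push_cast
  field_simp

omit [CompleteSpace E] in
theorem tcv_zero (f : ℂ → E) : tc 0 f = f 0 := by simp [tc]

end Vec

theorem fderiv_diffOn {f : E2 → E2} (hf : DifferentiableOn ℂ f (ball 0 1)) :
    DifferentiableOn ℂ (fderiv ℂ f) (ball 0 1) := by
  intro z hz
  have h1 : ContDiffAt ℂ (2 : ℕ) f z :=
    (contDiffOn_of_differentiableOn isOpen_ball hf 2).contDiffAt (isOpen_ball.mem_nhds hz)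
  have h2 : ContDiffAt ℂ 1 (fderiv ℂ f) z := h1.fderiv_right (by norm_num)
  exact (h2.differentiableAt (by norm_num)).differentiableWithinAt

theorem gen_diff {F h : E2 → E2} (hF : DifferentiableOn ℂ F (ball 0 1))
    (hh : DifferentiableOn ℂ h (ball 0 1)) :
    DifferentiableOn ℂ (fun z => fderiv ℂ F z (h z)) (ball 0 1) :=
  (fderiv_diffOn hF).clm_apply hh

theorem slice_mem {u : E2} (hu : ‖u‖ ≤ 1) {ζ : ℂ} (hζ : ζ ∈ ball (0 : ℂ) 1) :
    ζ • u ∈ ball (0 : E2) 1 := by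
  rw [mem_ball_zero_iff] at *
  rw [norm_smul]
  calc ‖ζ‖ * ‖u‖ ≤ ‖ζ‖ * 1 := by gcongr
    _ < 1 := by linarith

/-- The low order coefficients of `DF · h`. -/
theorem tc_gen {F h : E2 → E2} (hF : DifferentiableOn ℂ F (ball 0 1)) (hh : Cara h) {c : ℂ}
    (hc : fderiv ℂ F 0 = c • ContinuousLinearMap.id ℂ E2) {u : E2} (hu : ‖u‖ ≤ 1) :
    tc 2 (fun ζ : ℂ => fderiv ℂ F (ζ • u) (h (ζ • u))) =
      (2 : ℂ) • tc 2 (fun ζ : ℂ => F (ζ • u)) + c • tc 2 (fun ζ : ℂ => h (ζ • u)) ∧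
    tc 3 (fun ζ : ℂ => fderiv ℂ F (ζ • u) (h (ζ • u))) =
      (3 : ℂ) • tc 3 (fun ζ : ℂ => F (ζ • u)) +
        (fderiv ℂ (fderiv ℂ F) 0 u (tc 2 (fun ζ : ℂ => h (ζ • u))) +
          c • tc 3 (fun ζ : ℂ => h (ζ • u))) := by
  have hsl := slice_diff hh.diff hu
  have hslF := slice_diff hF hu
  -- the decomposition of `h`
  have dH : DifferentiableOn ℂ (fun ζ : ℂ => h (ζ • u) - ζ ^ 1 • u) (ball 0 1) := by
    apply hsl.sub
    fun_prop
  obtain ⟨K0, dK0, eK0, tK0⟩ := exists_divv one_pos dH (by simp [hh.zero])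
  have hder : HasDerivAt (fun ζ : ℂ => h (ζ • u) - ζ ^ 1 • u) 0 0 := by
    have h1 : HasFDerivAt h (ContinuousLinearMap.id ℂ E2) ((0 : ℂ) • u) := by
      rw [zero_smul, ← hh.fder]
      exact (hh.diff.differentiableAt (ball_mem_nhds _ one_pos)).hasFDerivAt
    have h2 : HasDerivAt (fun ζ : ℂ => ζ • u) ((1 : ℂ) • u) 0 :=
      (hasDerivAt_id (0 : ℂ)).smul_const u
    have h3 : HasDerivAt (fun ζ : ℂ => h (ζ • u)) ((ContinuousLinearMap.id ℂ E2) ((1 : ℂ) • u)) 0 :=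
      HasFDerivAt.comp_hasDerivAt (f := fun ζ : ℂ => ζ • u) (0 : ℂ) h1 h2
    have h4 : HasDerivAt (fun ζ : ℂ => ζ ^ 1 • u) ((1 : ℂ) • u) 0 := by
      simpa using h2
    have h5 := h3.sub h4
    simp only [ContinuousLinearMap.id_apply, sub_self] at h5
    exact h5
  have hK00 : K0 0 = 0 := by
    rw [← tcv_zero K0, ← tK0 0]
    exact tc_one hder
  obtain ⟨K, dK, eK, tK⟩ := exists_divv one_pos dK0 hK00
  have hKtc : ∀ n, tc n K = tc (n + 2) (fun ζ : ℂ => h (ζ • u)) := by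
    intro n
    rw [← tK n, ← tK0 (n + 1), tc_sub (n + 2) (contDiffAt_of_ball one_pos hsl _) (by fun_prop),
      tc_pow_smul, if_neg (by omega), sub_zero]
  have hhe : ∀ ζ : ℂ, h (ζ • u) = ζ • u + ζ • (ζ • K ζ) := by
    intro ζ
    have h1 := eK0 ζ
    rw [eK ζ, pow_one, sub_eq_iff_eq_add] at h1
    rw [h1, add_comm]
  -- the two pieces
  set g : ℂ → E2 := fun ζ => fderiv ℂ F (ζ • u) (K ζ) with hg
  have dfd : DifferentiableOn ℂ (fun ζ : ℂ => fderiv ℂ F (ζ • u)) (ball 0 1) :=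
    (fderiv_diffOn hF).comp (by fun_prop) (fun ζ hζ => slice_mem hu hζ)
  have dg : DifferentiableOn ℂ g (ball 0 1) := dfd.clm_apply dK
  have hphi : ∀ ζ ∈ ball (0 : ℂ) 1, HasDerivAt (fun ζ : ℂ => F (ζ • u)) (fderiv ℂ F (ζ • u) u) ζ := by
    intro ζ hζ
    have h1 : HasFDerivAt F (fderiv ℂ F (ζ • u)) (ζ • u) :=
      (hF.differentiableAt (isOpen_ball.mem_nhds (slice_mem hu hζ))).hasFDerivAt
    have h2 : HasDerivAt (fun ζ : ℂ => ζ • u) ((1 : ℂ) • u) ζ := (hasDerivAt_id ζ).smul_const u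
    rw [one_smul] at h2
    exact HasFDerivAt.comp_hasDerivAt (f := fun ζ : ℂ => ζ • u) ζ h1 h2
  have dphi : DifferentiableOn ℂ (fun ζ : ℂ => fderiv ℂ F (ζ • u) u) (ball 0 1) :=
    dfd.clm_apply (differentiableOn_const u)
  have hpsi : (fun ζ : ℂ => fderiv ℂ F (ζ • u) (h (ζ • u))) =
      fun ζ : ℂ => ζ • fderiv ℂ F (ζ • u) u + ζ • (ζ • g ζ) := by
    ext1 ζ
    simp only [hg]
    rw [hhe ζ, map_add, map_smul, map_smul, map_smul]
  have dg2 : DifferentiableOn ℂ (fun ζ : ℂ => ζ • g ζ) (ball 0 1) := differentiableOn_id.smul dg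
  have dg3 : DifferentiableOn ℂ (fun ζ : ℂ => ζ • (ζ • g ζ)) (ball 0 1) :=
    differentiableOn_id.smul dg2
  have dp2 : DifferentiableOn ℂ (fun ζ : ℂ => ζ • fderiv ℂ F (ζ • u) u) (ball 0 1) :=
    differentiableOn_id.smul dphi
  have hgen : ∀ n : ℕ, tc (n + 2) (fun ζ : ℂ => fderiv ℂ F (ζ • u) (h (ζ • u))) =
      ((n : ℂ) + 2) • tc (n + 2) (fun ζ : ℂ => F (ζ • u)) + tc n g := by
    intro n
    rw [hpsi, tc_add (n + 2) (contDiffAt_of_ball one_pos dp2 _) (contDiffAt_of_ball one_pos dg3 _),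
      tcv_succ one_pos dphi (n + 1), tcv_succ one_pos dg2 (n + 1), tcv_succ one_pos dg n]
    congr 1
    have h1 : tc (n + 1) (fun ζ : ℂ => fderiv ℂ F (ζ • u) u) =
        tc (n + 1) (deriv fun ζ : ℂ => F (ζ • u)) := by
      apply tc_congr
      filter_upwards [ball_mem_nhds (0 : ℂ) one_pos] with ζ hζ
      exact (hphi ζ hζ).deriv.symm
    rw [h1, tc_deriv]
    congr 1
    push_cast
    ring
  constructor
  · have h1 := hgen 0
    simp only [Nat.cast_zero, zero_add] at h1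
    rw [h1, tcv_zero]
    congr 1
    simp only [hg, zero_smul, hc]
    rw [smul_apply, ContinuousLinearMap.id_apply, ← tcv_zero K, hKtc 0]
  · have h1 := hgen 1
    have e3 : (1 + 2 : ℕ) = 3 := rfl
    rw [e3] at h1
    rw [h1]
    congr 1
    · congr 1
      push_cast
      norm_num
    · apply tc_one
      have k1 : HasFDerivAt (fderiv ℂ F) (fderiv ℂ (fderiv ℂ F) 0) ((0 : ℂ) • u) := by
        rw [zero_smul]
        exact ((fderiv_diffOn hF).differentiableAt (ball_mem_nhds _ one_pos)).hasFDerivAt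
      have k2 : HasDerivAt (fun ζ : ℂ => ζ • u) u 0 := by
        have := (hasDerivAt_id (0 : ℂ)).smul_const u
        simpa using this
      have k3 : HasDerivAt (fun ζ : ℂ => fderiv ℂ F (ζ • u)) (fderiv ℂ (fderiv ℂ F) 0 u) 0 :=
        HasFDerivAt.comp_hasDerivAt (f := fun ζ : ℂ => ζ • u) (0 : ℂ) k1 k2
      have k4 : HasDerivAt K (deriv K 0) 0 :=
        (dK.differentiableAt (ball_mem_nhds _ one_pos)).hasDerivAt
      have k5 := k3.clm_apply k4
      have k6 : deriv K 0 = tc 3 (fun ζ : ℂ => h (ζ • u)) := by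
        rw [← tc_one k4, hKtc 1]
      rw [k6, zero_smul, hc, smul_apply, ContinuousLinearMap.id_apply, ← tcv_zero K, hKtc 0] at k5
      exact k5

/-- The general coefficient bound. -/
theorem norm_tcn_le {f : E2 → E2} (hf : DifferentiableOn ℂ f (ball 0 1)) {u : E2} (hu : ‖u‖ ≤ 1)
    {C : ℝ} (hC : ∀ z : E2, ‖z‖ ≤ 1 / 2 → ‖f z‖ ≤ C) (n : ℕ) :
    ‖tc n (fun ζ : ℂ => f (ζ • u))‖ ≤ 2 ^ n * C := by
  have h1 : DiffContOnCl ℂ (fun ζ : ℂ => f (ζ • u)) (ball 0 (1 / 2)) :=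
    DifferentiableOn.diffContOnCl_ball (slice_diff hf hu) (closedBall_subset_ball (by norm_num))
  have h2 := Complex.norm_iteratedDeriv_le_of_forall_mem_sphere_norm_le (C := C) n
    (by norm_num : (0 : ℝ) < 1 / 2) h1 (fun z hz => hC _ (by
      rw [mem_sphere_zero_iff_norm] at hz
      rw [norm_smul, hz]
      linarith))
  rw [tc, norm_smul, norm_inv, Complex.norm_natCast]
  have h3 : (0 : ℝ) < (n.factorial : ℝ) := by exact_mod_cast n.factorial_pos
  rw [inv_mul_le_iff₀ h3]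
  refine h2.trans (le_of_eq ?_)
  rw [div_pow, one_pow, div_div_eq_mul_div, div_one]
  ring

end Pool.Agent.KS7_39.LJ
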