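import Mathlib
import Pool.Agent.KS7_39.H840R2.LJM

set_option autoImplicit false

namespace Pool.Agent.KS7_39.LJ

open Metric Set Filter Topology MeasureTheory Pool.Agent.KS7_39.H540

/-- Derivatives on a dense set give derivatives everywhere. -/
theorem deriv_everywhere {F : ℝ → E2 → E2} (hF : LC F) {t : ℝ} (ht : 0 < t) {D : Set E2}
    (hD : Dense D) {g : E2 → E2} (hgc : ContinuousOn g (ball 0 1))
    (hg : ∀ z ∈ D, z ∈ ball (0 : E2) 1 → HasDerivAt (fun s => F s z) (g z) t) :
    ∀ z ∈ ball (0 : E2) 1, HasDerivAt (fun s => F s z) (g z) t := by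
  intro z hz
  have hz1 : ‖z‖ < 1 := by simpa using hz
  set r := (1 + ‖z‖) / 2 with hr
  have hr1 : r < 1 := by simp only [hr]; linarith
  have hzr : ‖z‖ < r := by simp only [hr]; linarith
  obtain ⟨K, hK0, hK⟩ := hF.fderiv_lip hr1 (t + 1)
  -- Lipschitz estimate for differences
  have hlip : ∀ s, 0 ≤ s → s ≤ t + 1 → ∀ w : E2, ‖w‖ ≤ r →
      ‖(F s z - F t z) - (F s w - F t w)‖ ≤ K * |s - t| * ‖z - w‖ := by
    intro s hs0 hs1 w hw
    have hsub : closedBall (0 : E2) r ⊆ ball 0 1 := closedBall_subset_ball hr1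
    have hd : ∀ x ∈ closedBall (0 : E2) r, HasFDerivWithinAt (fun x => F s x - F t x)
        (fderiv ℂ (F s) x - fderiv ℂ (F t) x) (closedBall 0 r) x := by
      intro x hx
      have h1 := (((hF.holo s hs0).differentiableAt (isOpen_ball.mem_nhds (hsub hx))).hasFDerivAt)
      have h2 := (((hF.holo t ht.le).differentiableAt (isOpen_ball.mem_nhds (hsub hx))).hasFDerivAt)
      exact (h1.sub h2).hasFDerivWithinAt
    have hb : ∀ x ∈ closedBall (0 : E2) r, ‖fderiv ℂ (F s) x - fderiv ℂ (F t) x‖ ≤ K * |s - t| := by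
      intro x hx
      have hx' : ‖x‖ ≤ r := by simpa using hx
      rcases le_total s t with h | h
      · have := hK s t hs0 h (by linarith) x hx'
        rw [← norm_neg, neg_sub]
        rw [abs_of_nonpos (by linarith)]
        linarith
      · have := hK t s ht.le h hs1 x hx'
        rw [abs_of_nonneg (by linarith)]
        exact this
    exact (convex_closedBall (0 : E2) r).norm_image_sub_le_of_norm_hasFDerivWithin_le hd hb
      (by simpa using hw) (by simpa using hzr.le)
  rw [hasDerivAt_iff_isLittleO, Asymptotics.isLittleO_iff]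
  intro ε hε
  -- choose a point of `D`
  have hgz : ContinuousAt g z := hgc.continuousAt (isOpen_ball.mem_nhds hz)
  have hnear : ∀ᶠ w in 𝓝 z, ‖g w - g z‖ < ε / 3 ∧ ‖z - w‖ < ε / (3 * (K + 1)) ∧ ‖w‖ < r := by
    have h1 : ∀ᶠ w in 𝓝 z, ‖g w - g z‖ < ε / 3 := by
      have := Metric.tendsto_nhds.1 hgz.tendsto (ε / 3) (by positivity)
      simpa [dist_eq_norm] using this
    have h2 : ∀ᶠ w in 𝓝 z, ‖z - w‖ < ε / (3 * (K + 1)) := by
      have := Metric.ball_mem_nhds z (show 0 < ε / (3 * (K + 1)) by positivity)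
      filter_upwards [this] with w hw
      rwa [mem_ball, dist_eq_norm, norm_sub_rev] at hw
    have h3 : ∀ᶠ w in 𝓝 z, ‖w‖ < r := continuous_norm.continuousAt.eventually (gt_mem_nhds hzr)
    filter_upwards [h1, h2, h3] with w a b c using ⟨a, b, c⟩
  obtain ⟨w, hwD, hw1, hw2, hw3⟩ : ∃ w, w ∈ D ∧ ‖g w - g z‖ < ε / 3 ∧
      ‖z - w‖ < ε / (3 * (K + 1)) ∧ ‖w‖ < r := by
    obtain ⟨U, hU, hUo, hzU⟩ := _root_.mem_nhds_iff.1 hnear
    obtain ⟨w, hwU, hwD⟩ := hD.inter_open_nonempty U hUo ⟨z, hzU⟩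
    exact ⟨w, hwD, hU hwU⟩
  have hwb : w ∈ ball (0 : E2) 1 := by rw [mem_ball_zero_iff]; linarith
  have hder := hg w hwD hwb
  rw [hasDerivAt_iff_isLittleO, Asymptotics.isLittleO_iff] at hder
  have h1 := hder (show 0 < ε / 3 by positivity)
  have h2 : ∀ᶠ s in 𝓝 t, 0 < s ∧ s < t + 1 := by
    filter_upwards [Ioo_mem_nhds ht (by linarith : t < t + 1)] with s hs using hs
  filter_upwards [h1, h2] with s hs1 hs2
  have h3 := hlip s hs2.1.le hs2.2.le w hw3.le
  rw [Real.norm_eq_abs] at hs1 ⊢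
  have e : F s z - F t z - (s - t) • g z = ((F s z - F t z) - (F s w - F t w)) +
      (F s w - F t w - (s - t) • g w) + (s - t) • (g w - g z) := by
    rw [smul_sub]; abel
  rw [e]
  have h4 : K * |s - t| * ‖z - w‖ ≤ ε / 3 * |s - t| := by
    have h5 : K * ‖z - w‖ ≤ ε / 3 := by
      calc K * ‖z - w‖ ≤ (K + 1) * (ε / (3 * (K + 1))) := by
            have := norm_nonneg (z - w)
            gcongr
            linarith
        _ = ε / 3 := by field_simp
    have h6 := abs_nonneg (s - t)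
    nlinarith
  calc _ ≤ ‖(F s z - F t z) - (F s w - F t w)‖ + ‖F s w - F t w - (s - t) • g w‖ +
        ‖(s - t) • (g w - g z)‖ := norm_add₃_le
    _ ≤ ε / 3 * |s - t| + ε / 3 * |s - t| + |s - t| * (ε / 3) := by
        rw [norm_smul, Real.norm_eq_abs]
        gcongr
        exact h3.trans h4
    _ = ε * |s - t| := by ring

/-- Differentiation of the coefficients. -/
theorem tc_hasDerivAt {F : ℝ → E2 → E2} (hF : LC F) {t : ℝ} (ht : 0 < t) {g : E2 → E2}
    (hgd : DifferentiableOn ℂ g (ball 0 1))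
    (hg : ∀ z ∈ ball (0 : E2) 1, HasDerivAt (fun s => F s z) (g z) t) {u : E2} (hu : ‖u‖ ≤ 1)
    (n : ℕ) : HasDerivAt (fun s => tc n (fun ζ : ℂ => F s (ζ • u)))
      (tc n (fun ζ : ℂ => g (ζ • u))) t := by
  obtain ⟨K, hK0, hK⟩ := hF.lip (r := 1 / 2) (by norm_num) (t + 1)
  have hcont : ∀ f : E2 → E2, DifferentiableOn ℂ f (ball 0 1) →
      Continuous (fun θ : ℝ => ((circleMap 0 (1 / 2) θ) ^ n)⁻¹ • f (circleMap 0 (1 / 2) θ • u)) := by
    intro f hf
    have h1 : Continuous (fun θ : ℝ => (circleMap (0 : ℂ) (1 / 2) θ ^ n)⁻¹) := by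
      apply Continuous.inv₀ (by fun_prop)
      intro θ
      apply pow_ne_zero
      simp [circleMap]
    apply h1.smul
    have h2 : ContinuousOn (fun ζ : ℂ => f (ζ • u)) (ball 0 1) := (slice_diff hf hu).continuousOn
    apply h2.comp_continuous (continuous_circleMap 0 (1 / 2))
    intro θ
    rw [mem_ball_zero_iff]
    simp [circleMap]
    norm_num
  have hform : ∀ f : E2 → E2, DifferentiableOn ℂ f (ball 0 1) →
      tc n (fun ζ : ℂ => f (ζ • u)) = (2 * Real.pi)⁻¹ • ∫ θ in (0 : ℝ)..(2 * Real.pi),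
        ((circleMap 0 (1 / 2) θ) ^ n)⁻¹ • f (circleMap 0 (1 / 2) θ • u) := by
    intro f hf
    have h1 : DiffContOnCl ℂ (fun ζ : ℂ => f (ζ • u)) (ball 0 (1 / 2)) :=
      DifferentiableOn.diffContOnCl_ball (slice_diff hf hu) (closedBall_subset_ball (by norm_num))
    rw [← tc_circleAverage (by norm_num : (0 : ℝ) < 1 / 2) n h1]
    rfl
  have key := intervalIntegral.hasDerivAt_integral_of_dominated_loc_of_lip
    (μ := volume) (a := 0) (b := 2 * Real.pi) (s := Ioo 0 (t + 1)) (x₀ := t)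
    (F := fun s θ => ((circleMap 0 (1 / 2) θ) ^ n)⁻¹ • F s (circleMap 0 (1 / 2) θ • u))
    (F' := fun θ => ((circleMap 0 (1 / 2) θ) ^ n)⁻¹ • g (circleMap 0 (1 / 2) θ • u))
    (bound := fun _ => 2 ^ n * K)
    (Ioo_mem_nhds ht (by linarith))
    (by
      filter_upwards [Ioo_mem_nhds ht (by linarith : t < t + 1)] with s hs
      exact (hcont _ (hF.holo s hs.1.le)).aestronglyMeasurable)
    ((hcont _ (hF.holo t ht.le)).intervalIntegrable _ _)
    (hcont _ hgd).aestronglyMeasurable
    (by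
      apply Eventually.of_forall
      intro θ _
      rw [lipschitzOnWith_iff_norm_sub_le]
      intro x hx y hy
      rw [← smul_sub, norm_smul, norm_inv, norm_pow, norm_circleMap_zero]
      have hzn : ‖circleMap 0 (1 / 2) θ • u‖ ≤ 1 / 2 := by
        rw [norm_smul, norm_circleMap_zero, abs_of_pos (by norm_num)]
        linarith
      have h1 : ‖F x (circleMap 0 (1 / 2) θ • u) - F y (circleMap 0 (1 / 2) θ • u)‖ ≤
          K * |x - y| := by
        rcases le_total x y with h | h
        · have := hK x y hx.1.le h hy.2.le _ hzn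
          rw [norm_sub_rev, abs_sub_comm, abs_of_nonneg (by linarith)]
          exact this
        · have := hK y x hy.1.le h hx.2.le _ hzn
          rw [abs_of_nonneg (by linarith)]
          exact this
      rw [abs_of_pos (by norm_num : (0 : ℝ) < 1 / 2), Real.norm_eq_abs, Real.coe_nnabs,
        abs_of_nonneg (by positivity : (0 : ℝ) ≤ 2 ^ n * K)]
      have e : ((1 / 2 : ℝ) ^ n)⁻¹ = 2 ^ n := by
        rw [one_div, inv_pow, inv_inv]
      rw [e, mul_assoc]
      gcongr)
    intervalIntegrable_const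
    (by
      apply Eventually.of_forall
      intro θ _
      have hm : circleMap 0 (1 / 2) θ • u ∈ ball (0 : E2) 1 := by
        apply slice_mem hu
        rw [mem_ball_zero_iff, norm_circleMap_zero, abs_of_pos (by norm_num)]
        norm_num
      exact (hg _ hm).const_smul ((circleMap 0 (1 / 2) θ ^ n)⁻¹))
  have h2 := key.2.const_smul ((2 * Real.pi)⁻¹ : ℝ)
  rw [← hform g hgd] at h2
  apply h2.congr_of_eventuallyEq
  filter_upwards [Ioo_mem_nhds ht (by linarith : t < t + 1)] with s hs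
  exact hform (F s) (hF.holo s hs.1.le)

end Pool.Agent.KS7_39.LJ
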