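import Mathlib
import Pool.Agent.KS7_39.H840R2.LJO

set_option autoImplicit false

namespace Pool.Agent.KS7_39.LJ

open Metric Set Filter Topology MeasureTheory Pool.Agent.KS7_39.H540

theorem mono_lim {f f' : ℝ → ℝ} {a l : ℝ}
    (hf : ∀ b, a ≤ b → AbsolutelyContinuousOnInterval f a b)
    (h : ∀ᵐ x, a < x → HasDerivAt f (f' x) x ∧ 0 ≤ f' x) (hl : Tendsto f atTop (𝓝 l)) :
    ∀ b, a ≤ b → f b ≤ l := by
  intro b hab
  apply ge_of_tendsto hl
  filter_upwards [eventually_ge_atTop b] with c hc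
  apply mono_ae (f' := f') hc
  · apply (hf c (hab.trans hc)).mono
    rw [uIcc_of_le hc, uIcc_of_le (hab.trans hc)]
    exact Icc_subset_Icc hab le_rfl
  · filter_upwards [h] with x hx hxm
    exact hx (hab.trans_lt hxm.1)

theorem zero_lim {f f' : ℝ → ℝ} {a l : ℝ}
    (hf : ∀ b, a ≤ b → AbsolutelyContinuousOnInterval f a b)
    (h : ∀ᵐ x, a < x → HasDerivAt f (f' x) x ∧ 0 ≤ f' x) (hl : Tendsto f atTop (𝓝 l))
    (hle : l ≤ f a) : ∀ᵐ x, a < x → f' x = 0 := by
  have key : ∀ n : ℕ, ∀ᵐ x, x ∈ Ioo a (a + n) → f' x = 0 := by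
    intro n
    have han : a ≤ a + n := by linarith [Nat.cast_nonneg (α := ℝ) n]
    apply zero_ae (f := f) han (hf _ han)
    · filter_upwards [h] with x hx hxm using hx hxm.1
    · exact (mono_lim hf h hl _ han).trans hle
  rw [← ae_all_iff] at key
  filter_upwards [key] with x hx hax
  obtain ⟨n, hn⟩ := exists_nat_gt (x - a)
  exact hx n ⟨hax, by linarith⟩

theorem exp_ac (c : ℝ) (a b : ℝ) :
    AbsolutelyContinuousOnInterval (fun t => Real.exp (c * t)) a b := by
  apply ContDiffOn.absolutelyContinuousOnInterval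
  fun_prop

theorem hasDerivAt_exp_mul (c t : ℝ) :
    HasDerivAt (fun t => Real.exp (c * t)) (c * Real.exp (c * t)) t := by
  have h1 : HasDerivAt (fun t : ℝ => c * t) c t := by
    simpa using (hasDerivAt_id t).const_mul c
  have h2 := h1.exp
  rw [mul_comm] at h2
  exact h2

theorem tendsto_exp_mul {c : ℝ} (hc : c < 0) :
    Tendsto (fun t => Real.exp (c * t)) atTop (𝓝 0) := by
  apply Real.tendsto_exp_atBot.comp
  exact tendsto_id.const_mul_atTop_of_neg hc

/-- A quantity bounded by `M e^t` times `e^{-ct}`, `c > 1`, tends to zero. -/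
theorem tendsto_of_growth {g : ℝ → ℝ} {M c : ℝ} (hg : ∀ t, 0 ≤ t → |g t| ≤ M * Real.exp t)
    (hc : c < -1) : Tendsto (fun t => Real.exp (c * t) * g t) atTop (𝓝 0) := by
  have h1 : Tendsto (fun t => M * Real.exp ((c + 1) * t)) atTop (𝓝 0) := by
    have := (tendsto_exp_mul (c := c + 1) (by linarith)).const_mul M
    simpa using this
  apply squeeze_zero_norm' _ h1
  filter_upwards [eventually_ge_atTop 0] with t ht
  rw [Real.norm_eq_abs, abs_mul, abs_of_pos (Real.exp_pos _)]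
  calc Real.exp (c * t) * |g t| ≤ Real.exp (c * t) * (M * Real.exp t) := by
        have := hg t ht
        gcongr
    _ = M * (Real.exp (c * t) * Real.exp t) := by ring
    _ = M * Real.exp ((c + 1) * t) := by
        rw [← Real.exp_add]; congr 2; ring

/-! ### Level one -/

/-- The level one function. -/
noncomputable def be (F : ℝ → E2 → E2) (t : ℝ) : ℝ :=
  Real.exp (-2 * t) * ar F t - 3 * Real.sqrt 3 / 2 * Real.exp (-1 * t)

theorem be_ac {F : ℝ → E2 → E2} (hF : LC F) {a b : ℝ} (ha : 0 ≤ a) (hab : a ≤ b) :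
    AbsolutelyContinuousOnInterval (be F) a b :=
  ((exp_ac (-2) a b).mul (ar_ac hF ha hab)).sub ((exp_ac (-1) a b).const_mul _)

theorem be_lim {F : ℝ → E2 → E2} (hF : LC F) : Tendsto (be F) atTop (𝓝 0) := by
  obtain ⟨M, hM0, hM⟩ := coef_growth hF
  have h1 := tendsto_of_growth (g := ar F) (c := -2) (fun t ht => (hM t ht).1) (by norm_num)
  have h2 := (tendsto_exp_mul (c := -1) (by norm_num)).const_mul (3 * Real.sqrt 3 / 2)
  have h3 := h1.sub h2
  rw [mul_zero, sub_zero] at h3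
  exact h3

theorem be_ode {F : ℝ → E2 → E2} (hF : LC F) {h : E2 → E2} (hh : Cara h) {t : ℝ} (ht : 0 < t)
    (hg : GenAt F h t) : HasDerivAt (be F)
      (Real.exp (-1 * t) * ((aco (cmp h 0) 2).re + 3 * Real.sqrt 3 / 2)) t := by
  have h1 := ((hasDerivAt_exp_mul (-2) t).mul (ar_ode hF hh ht hg)).sub
    ((hasDerivAt_exp_mul (-1) t).const_mul (3 * Real.sqrt 3 / 2))
  refine HasDerivAt.congr_deriv (f := be F) h1 ?_
  have e1 : Real.exp (-2 * t) * Real.exp t = Real.exp (-1 * t) := by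
    rw [← Real.exp_add]; congr 1; ring
  linear_combination (aco (cmp h 0) 2).re * e1

theorem re_q_ge {h : E2 → E2} (hh : Cara h) : 0 ≤ (aco (cmp h 0) 2).re + 3 * Real.sqrt 3 / 2 := by
  have h1 := q_bound hh
  have h2 := (abs_le.1 ((Complex.abs_re_le_norm _).trans h1)).1
  linarith

theorem face_of_re {h : E2 → E2} (hh : Cara h)
    (hq : (aco (cmp h 0) 2).re + 3 * Real.sqrt 3 / 2 = 0) : Face h := by
  refine ⟨hh, ?_⟩
  have h1 := q_bound hh
  have hre : (aco (cmp h 0) 2).re = -(3 * Real.sqrt 3 / 2) := by linarith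
  have h2 : ‖aco (cmp h 0) 2‖ ^ 2 = (aco (cmp h 0) 2).re ^ 2 + (aco (cmp h 0) 2).im ^ 2 := by
    rw [← Complex.normSq_eq_norm_sq, Complex.normSq_apply]; ring
  have h3 : ‖aco (cmp h 0) 2‖ ^ 2 ≤ (3 * Real.sqrt 3 / 2) ^ 2 := by gcongr
  have h4 : (aco (cmp h 0) 2).im = 0 := by
    rw [h2, hre] at h3
    have : (aco (cmp h 0) 2).im ^ 2 ≤ 0 := by linarith
    exact pow_eq_zero_iff (two_ne_zero) |>.1 (le_antisymm this (sq_nonneg _))
  apply Complex.ext
  · rw [hre, Complex.ofReal_re]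
  · rw [h4, Complex.ofReal_im]

/-- Level one: the field of an extremal chain lies in the face. -/
theorem level_one {F : ℝ → E2 → E2} (hF : LC F) {H : ℝ → E2 → E2}
    (hgen : ∀ᵐ t, 0 < t → Cara (H t) ∧ GenAt F (H t) t) (h0 : 3 * Real.sqrt 3 / 2 ≤ ar F 0) :
    ∀ᵐ t, 0 < t → Face (H t) := by
  have h1 := zero_lim (f := be F)
    (f' := fun t => Real.exp (-1 * t) * ((aco (cmp (H t) 0) 2).re + 3 * Real.sqrt 3 / 2))
    (a := 0) (l := 0) (fun b hb => be_ac hF le_rfl hb) (by
      filter_upwards [hgen] with t ht ht0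
      obtain ⟨k1, k2⟩ := ht ht0
      exact ⟨be_ode hF k1 ht0 k2, mul_nonneg (Real.exp_pos _).le (re_q_ge k1)⟩)
    (be_lim hF) (by
      rw [be]
      simp only [mul_zero, Real.exp_zero, one_mul, mul_one]
      linarith)
  filter_upwards [hgen, h1] with t ht ht1 ht0
  obtain ⟨k1, k2⟩ := ht ht0
  exact face_of_re k1 ((mul_eq_zero.1 (ht1 ht0)).resolve_left (Real.exp_pos _).ne')

/-- Level one for a chain generated inside the face. -/
theorem level_one_eq {F : ℝ → E2 → E2} (hF : LC F) {H : ℝ → E2 → E2}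
    (hgen : ∀ᵐ t, 0 < t → Face (H t) ∧ GenAt F (H t) t) : ar F 0 = 3 * Real.sqrt 3 / 2 := by
  have hd : ∀ᵐ t, 0 < t → HasDerivAt (be F) 0 t := by
    filter_upwards [hgen] with t ht ht0
    obtain ⟨k1, k2⟩ := ht ht0
    refine (be_ode hF k1.cara ht0 k2).congr_deriv ?_
    rw [k1.q, Complex.ofReal_re]
    ring
  have h1 := mono_lim (f := be F) (f' := fun _ => 0) (a := 0) (l := 0)
    (fun b hb => be_ac hF le_rfl hb) (by
      filter_upwards [hd] with t ht ht0
      exact ⟨ht ht0, le_rfl⟩) (be_lim hF) 0 le_rfl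
  have h2 := mono_lim (f := fun t => -be F t) (f' := fun _ => 0) (a := 0) (l := -0)
    (fun b hb => (be_ac hF le_rfl hb).neg) (by
      filter_upwards [hd] with t ht ht0
      refine ⟨?_, le_rfl⟩
      have := (ht ht0).neg
      rw [neg_zero] at this
      exact this) (be_lim hF).neg 0 le_rfl
  rw [be] at h1 h2
  simp only [mul_zero, Real.exp_zero, one_mul, mul_one] at h1 h2
  linarith

/-- The sharp bound for the level one functional on all normal chains. -/
theorem ar_le {F : ℝ → E2 → E2} (hF : LC F) : ar F 0 ≤ 3 * Real.sqrt 3 / 2 := by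
  set C : ℝ := 3 * Real.sqrt 3 / 2 with hC
  have hC0 : 0 ≤ C := by positivity
  set b : ℝ → ℝ := fun s => Real.exp (-s) * ar F s with hb
  obtain ⟨M, hM0, hM⟩ := coef_growth hF
  have hbM : ∀ s, 0 ≤ s → b s ≤ M := by
    intro s hs
    have h1 : ar F s ≤ M * Real.exp s := (le_abs_self _).trans (hM s hs).1
    have h2 : Real.exp (-s) * Real.exp s = 1 := by rw [← Real.exp_add]; simp
    calc b s ≤ Real.exp (-s) * (M * Real.exp s) := by simp only [hb]; gcongr
      _ = M * (Real.exp (-s) * Real.exp s) := by ring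
      _ = M := by rw [h2, mul_one]
  have hstep : ∀ s, 0 ≤ s → ∀ δ, 0 < δ → b s ≤ C * (Real.exp δ - 1) + Real.exp (-δ) * b (s + δ) := by
    intro s hs δ hδ
    obtain ⟨g, hg, hgu⟩ := hF.tc_two hs (by linarith : s < s + δ)
    have h1 := hgu (pt 0 1) norm_pt_zero_one
    have h3 : -C ≤ ((qf g (pt 0 1)) 0).re := by
      have := re_q_ge hg
      rw [aco_two_eq hg.diff] at this
      linarith
    have e0 : s - (s + δ) = -δ := by ring
    rw [e0] at h1
    have h4 : ar F s = Real.exp (-δ) ^ 2 * ar F (s + δ) -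
          Real.exp (s + δ) * (1 - Real.exp (-δ)) * ((qf g (pt 0 1)) 0).re := by
      have e2 : (qf (F s) (pt 0 1)) 0 = ((Real.exp (-δ) ^ 2 : ℝ) : ℂ) * (qf (F (s + δ)) (pt 0 1)) 0 -
          ((Real.exp (s + δ) * (1 - Real.exp (-δ)) : ℝ) : ℂ) * (qf g (pt 0 1)) 0 := by
        have e3 : qf (F s) (pt 0 1) = tc 2 (fun ζ : ℂ => F s (ζ • pt 0 1)) := rfl
        rw [e3, h1]
        simp only [PiLp.sub_apply, PiLp.smul_apply, smul_eq_mul, Complex.ofReal_pow]
        rfl
      rw [ar, e2, Complex.sub_re, Complex.re_ofReal_mul, Complex.re_ofReal_mul]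
      rfl
    simp only [hb]
    rw [h4]
    have e1 : Real.exp (-s) * Real.exp (s + δ) = Real.exp δ := by rw [← Real.exp_add]; congr 1; ring
    have e2 : Real.exp (-δ) * Real.exp δ = 1 := by rw [← Real.exp_add]; simp
    have e3 : Real.exp (-(s + δ)) = Real.exp (-s) * Real.exp (-δ) := by
      rw [← Real.exp_add]; congr 1; ring
    rw [e3]
    have e4 : Real.exp (-s) * (Real.exp (-δ) ^ 2 * ar F (s + δ) - Real.exp (s + δ) *
        (1 - Real.exp (-δ)) * ((qf g (pt 0 1)) 0).re) =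
        Real.exp (-δ) * (Real.exp (-s) * Real.exp (-δ) * ar F (s + δ)) -
        (Real.exp (-s) * Real.exp (s + δ)) * (1 - Real.exp (-δ)) * ((qf g (pt 0 1)) 0).re := by ring
    rw [e4, e1]
    have e5 : Real.exp δ * (1 - Real.exp (-δ)) = Real.exp δ - 1 := by linarith
    rw [e5]
    have h5 : 0 ≤ Real.exp δ - 1 := by
      have := Real.one_le_exp hδ.le
      linarith
    nlinarith
  set S : Set ℝ := b '' Ici 0 with hS
  have hSb : BddAbove S := ⟨M, by rintro _ ⟨t, ht, rfl⟩; exact hbM t ht⟩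
  have hSn : S.Nonempty := ⟨_, ⟨0, mem_Ici.2 le_rfl, rfl⟩⟩
  set q : ℝ := sSup S with hq
  have hle : ∀ δ : ℝ, 0 < δ → q ≤ C * Real.exp δ := by
    intro δ hδ
    have h1 : q ≤ C * (Real.exp δ - 1) + Real.exp (-δ) * q := by
      apply csSup_le hSn
      rintro _ ⟨s, hs, rfl⟩
      have hs' : (0 : ℝ) ≤ s := hs
      refine (hstep s hs' δ hδ).trans ?_
      have h2 : b (s + δ) ≤ q := le_csSup hSb ⟨s + δ, by
        show (0 : ℝ) ≤ s + δ
        linarith, rfl⟩
      have h3 := mul_le_mul_of_nonneg_left h2 (Real.exp_pos (-δ)).le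
      linarith
    have h2 : Real.exp (-δ) * Real.exp δ = 1 := by rw [← Real.exp_add]; simp
    have h3 : Real.exp (-δ) < 1 := by rw [Real.exp_lt_one_iff]; linarith
    have h4 : (1 - Real.exp (-δ)) * q ≤ (1 - Real.exp (-δ)) * (C * Real.exp δ) := by
      have h5 : (1 - Real.exp (-δ)) * (C * Real.exp δ) =
          C * (Real.exp δ - Real.exp (-δ) * Real.exp δ) := by ring
      rw [h5, h2]
      linarith
    exact le_of_mul_le_mul_left h4 (by linarith)
  have hq2 : q ≤ C := by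
    have h1 : Tendsto (fun δ : ℝ => C * Real.exp δ) (𝓝[>] 0) (𝓝 (C * Real.exp 0)) := by
      apply Tendsto.mono_left _ nhdsWithin_le_nhds
      have : Continuous (fun δ : ℝ => C * Real.exp δ) := by fun_prop
      exact this.tendsto 0
    rw [Real.exp_zero, mul_one] at h1
    apply ge_of_tendsto h1
    filter_upwards [self_mem_nhdsWithin] with δ hδ using hle δ hδ
  have hbt : b 0 ≤ C := (le_csSup hSb ⟨0, mem_Ici.2 le_rfl, rfl⟩).trans hq2
  simpa [hb] using hbt

end Pool.Agent.KS7_39.LJ
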